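import Pool.Agent.H24.VG.UNQ

/-!
# VG: averaging lemma for the modules CLA and PFM
-/

open MeasureTheory Set Filter Topology
open scoped ENNReal NNReal ContDiff ComplexConjugate

namespace Pool.Agent.H24.VG

open Pool.Agent.H95.VG

variable {n : ℕ} {X : Type} [TopologicalSpace X] {ι : Type}

theorem src_open (A : Atl n X ι) {f : V n → X} {I : Set (V n)} (hS : Sing A f I) (b : ι) :
    IsOpen {z | z ∈ Dp n \ I ∧ f z ∈ (A.φ b).source} := by
  have := hS.cont.isOpen_inter_preimage hS.opn (A.φ b).open_source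
  exact this

theorem jac_cont (hs : T_SMO) {O : Set (V n)} {Y : V n → V n} (hO : IsOpen O)
    (hY : DifferentiableOn ℂ Y O) : ContinuousOn (fun z => jac Y z) O := by
  refine continuousOn_pi.2 fun i => continuousOn_pi.2 fun j => ?_
  have h2 := ((hs n (V n) _ _ hO hY).2.2 (ek j)).continuousOn
  exact (continuous_apply i).comp_continuousOn h2

theorem meas_det {F : V n → Matrix (Fin n) (Fin n) ℂ} (h : ∀ i j, Measurable fun z => F z i j) :
    Measurable fun z => (F z).det := by
  simp only [Matrix.det_apply]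
  refine Finset.measurable_fun_sum _ fun σ _ => Measurable.const_smul ?_ _
  exact Finset.measurable_fun_prod _ fun i _ => h _ _

theorem meas_jac (Y : V n → V n) (i j : Fin n) : Measurable fun z => jac Y z i j := by
  change Measurable fun y => (fderiv ℂ Y y (ek j)) i
  exact (measurable_pi_apply _).comp (measurable_fderiv_apply_const ℂ _ (ek j))

theorem meas_cf (Y : V n → V n) (k : Fin n) : Measurable (cf Y k) := by
  refine measurable_pi_lambda _ fun i => ?_
  unfold cf
  simp only [Matrix.adjugate_apply]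
  refine meas_det fun a b => ?_
  simp only [Matrix.updateRow_apply]
  by_cases h : a = k
  · simp only [h, if_true]; exact measurable_const
  · simp only [h, if_false]; exact meas_jac _ _ _

theorem lev_joint {P : V n → ℝ} (hP : ContDiff ℝ 2 P) :
    Continuous (fun q : V n × V n => lev P q.1 q.2) := by
  have h1 : ContDiff ℝ 1 (fderiv ℝ P) := hP.fderiv_right (by norm_num)
  have h2 : ∀ z u : V n, fderiv ℝ (fun x => fderiv ℝ P x u) z u =
      fderiv ℝ (fderiv ℝ P) z u u := by
    intro z u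
    rw [fderiv_clm_apply ((h1.differentiable (by norm_num)) z) (differentiableAt_const u)]
    simp
  have h3 : Continuous (fderiv ℝ (fderiv ℝ P)) := h1.continuous_fderiv (by norm_num)
  unfold lev
  simp only [h2]
  refine Continuous.const_smul (Continuous.add ?_ ?_) (4 : ℝ)⁻¹
  · exact ((h3.comp continuous_fst).clm_apply continuous_snd).clm_apply continuous_snd
  · have h4 : Continuous (fun q : V n × V n => Complex.I • q.2) :=
      continuous_snd.const_smul Complex.I
    exact ((h3.comp continuous_fst).clm_apply h4).clm_apply h4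

theorem meas_lev {P : V n → ℝ} (hP : ContDiff ℝ 2 P) (Y : V n → V n) (k : Fin n) :
    Measurable (fun z => lev P z (cf Y k z)) :=
  (lev_joint hP).measurable.comp (measurable_id.prodMk (meas_cf Y k))

section
variable [T2Space X] [Fintype ι]

theorem pb_eq (ho : T_OAO) (A : Atl n X ι) {f : V n → X} {I : Set (V n)} (hS : Sing A f I)
    (p : ι → V n → ℝ) {z : V n} {b : ι} (hz : z ∈ Dp n \ I) (hb : f z ∈ (A.φ b).source) :
    PB A f p z = dens A p b (f z) * ‖(jac (FF A f b) z).det‖ ^ 2 :=
  PB_eq A f p fun a ha => (ho n X ι A f I hS a).2.2.2.2.2 b z hz ha hb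

theorem pb_cont (hs : T_SMO) (ho : T_OAO) (A : Atl n X ι) {f : V n → X} {I : Set (V n)}
    (hS : Sing A f I) {p : ι → V n → ℝ} (hp : ∀ a, Continuous (p a))
    (hsup : ∀ a y, p a y ≠ 0 → y ∈ Metric.closedBall (0 : V n) (3 / 2)) :
    ContinuousOn (PB A f p) (Dp n \ I) := by
  intro z hz
  have hb := ch_source A (f z)
  set b := ch A (f z) with hbd
  have hO := src_open A hS b
  have hzO : z ∈ {z | z ∈ Dp n \ I ∧ f z ∈ (A.φ b).source} := ⟨hz, hb⟩
  have h1 : PB A f p =ᶠ[𝓝 z] fun z => dens A p b (f z) * ‖(jac (FF A f b) z).det‖ ^ 2 := by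
    filter_upwards [hO.mem_nhds hzO] with y hy
    exact pb_eq ho A hS p hy.1 hy.2
  refine ContinuousAt.continuousWithinAt (ContinuousAt.congr ?_ h1.symm)
  have hf : ContinuousAt f z := hS.cont.continuousAt (hS.opn.mem_nhds hz)
  refine ContinuousAt.mul ?_ ?_
  · exact ((dens_cont hs A b hp hsup).continuousAt ((A.φ b).open_source.mem_nhds hb)).comp hf
  · have hj : ContinuousAt (fun z => jac (FF A f b) z) z :=
      (jac_cont hs hO (hS.hol b)).continuousAt (hO.mem_nhds hzO)
    have hd : Continuous (fun M : Matrix (Fin n) (Fin n) ℂ => M.det) := continuous_id.matrix_det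
    exact ((hd.continuousAt.comp hj).norm).pow 2

omit [T2Space X] in
theorem pb_nonneg (A : Atl n X ι) {w : ι → V n → ℝ} (hw : Gau A w) (f : V n → X) (z : V n) :
    0 ≤ PB A f w z := by
  unfold PB Wt
  refine Finset.sum_nonneg fun a _ => mul_nonneg ?_ (sq_nonneg _)
  exact indicator_nonneg (fun x _ => hw.nonneg _ _) _

omit [T2Space X] in
theorem w_bdd (A : Atl n X ι) {w : ι → V n → ℝ} (hw : Gau A w) :
    ∃ C : ℝ, 0 ≤ C ∧ ∀ a y, w a y ≤ C := by
  have h1 : ∀ a, ∃ C : ℝ, ∀ y, w a y ≤ C := by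
    intro a
    obtain ⟨C, hC⟩ := (isCompact_closedBall (0 : V n) (3 / 2)).exists_bound_of_continuousOn
      (hw.smooth a).continuous.continuousOn
    refine ⟨max C 0, fun y => ?_⟩
    by_cases hy : w a y = 0
    · rw [hy]; exact le_max_right _ _
    · exact (le_abs_self _).trans ((hC y (hw.supp a y hy)).trans (le_max_left _ _))
  choose C hC using h1
  refine ⟨∑ a, |C a|, Finset.sum_nonneg fun _ _ => abs_nonneg _, fun a y => ?_⟩
  exact (hC a y).trans ((le_abs_self _).trans
    (Finset.single_le_sum (f := fun a => |C a|) (fun _ _ => abs_nonneg _) (Finset.mem_univ a)))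

omit [T2Space X] [Fintype ι] in
theorem det_le_Dm (Y : V n → V n) (z : V n) : ‖(jac Y z).det‖ ^ 2 ≤ Dm Y z := by
  unfold Dm
  exact Finset.single_le_sum (f := fun Φ : Fin n → Fin n ⊕ Fin n =>
    ‖(jac (mix Φ Y) z).det‖ ^ 2) (fun _ _ => sq_nonneg _)
    (Finset.mem_univ (fun i => Sum.inr i : Fin n → Fin n ⊕ Fin n))

omit [T2Space X] in
theorem Wt_cb (A : Atl n X ι) {w : ι → V n → ℝ} (hw : Gau A w) (f : V n → X) (a : ι) (z : V n)
    (hz : z ∉ Cb A f a 2) : Wt A w a (f z) = 0 := by
  unfold Wt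
  by_cases h1 : f z ∈ (A.φ a).source
  · rw [indicator_of_mem h1]
    by_contra hne
    exact hz ⟨h1, Metric.closedBall_subset_closedBall (by norm_num) (hw.supp a _ hne)⟩
  · exact indicator_of_notMem h1 _

omit [T2Space X] in
theorem Wt_bd (A : Atl n X ι) {w : ι → V n → ℝ} (hw : Gau A w) {C : ℝ} (hC0 : 0 ≤ C)
    (hC : ∀ a y, w a y ≤ C) (a : ι) (x : X) : 0 ≤ Wt A w a x ∧ Wt A w a x ≤ C := by
  unfold Wt
  by_cases h1 : x ∈ (A.φ a).source
  · rw [indicator_of_mem h1]
    exact ⟨hw.nonneg _ _, hC _ _⟩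
  · rw [indicator_of_notMem h1]
    exact ⟨le_rfl, hC0⟩

omit [Fintype ι] in
theorem cb_meas (ho : T_OAO) (A : Atl n X ι) {f : V n → X} {I : Set (V n)} (hS : Sing A f I)
    (a : ι) : MeasurableSet ((Dp n \ I) ∩ Cb A f a 2) := by
  obtain ⟨C, hC, he⟩ := (ho n X ι A f I hS a).2.2.1 2 le_rfl
  rw [he]
  exact hS.opn.measurableSet.inter hC.measurableSet

theorem pb_fin (ho : T_OAO) (A : Atl n X ι) {w : ι → V n → ℝ} (hw : Gau A w)
    {f : V n → X} {I : Set (V n)} (hS : Sing A f I) {K : Set (V n)} (hK : K ⊆ Dp n)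
    (hKc : IsCompact K) : ∫⁻ z in K \ I, ENNReal.ofReal (PB A f w z) < ⊤ := by
  obtain ⟨C, hC0, hC⟩ := w_bdd A hw
  have hD : ∀ a, Measurable (fun z => ENNReal.ofReal (Dm (FF A f a) z)) := by
    intro a
    refine Measurable.ennreal_ofReal ?_
    unfold Dm
    exact Finset.measurable_fun_sum _ fun Φ _ => Measurable.pow_const (Measurable.norm
      (meas_det (meas_jac _))) 2
  have hKI : K \ I = (Dp n \ I) ∩ K := by
    ext z; constructor
    · rintro ⟨h1, h2⟩; exact ⟨⟨hK h1, h2⟩, h1⟩
    · rintro ⟨⟨h1, h2⟩, h3⟩; exact ⟨h3, h2⟩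
  have hKm : MeasurableSet (K \ I) := by
    rw [hKI]; exact hS.opn.measurableSet.inter hKc.measurableSet
  have hcb : ∀ a, MeasurableSet ((K \ I) ∩ Cb A f a 2) := by
    intro a
    have : (K \ I) ∩ Cb A f a 2 = K ∩ ((Dp n \ I) ∩ Cb A f a 2) := by
      rw [hKI]; ext z; simp only [mem_inter_iff]; tauto
    rw [this]
    exact hKc.measurableSet.inter (cb_meas ho A hS a)
  calc ∫⁻ z in K \ I, ENNReal.ofReal (PB A f w z)
      ≤ ∫⁻ z in K \ I, ∑ a, ENNReal.ofReal C * ((K \ I) ∩ Cb A f a 2).indicator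
          (fun z => ENNReal.ofReal (Dm (FF A f a) z)) z := by
        refine setLIntegral_mono' hKm fun z hz => ?_
        unfold PB
        rw [ENNReal.ofReal_sum_of_nonneg fun a _ => mul_nonneg (Wt_bd A hw hC0 hC a _).1
          (sq_nonneg _)]
        refine Finset.sum_le_sum fun a _ => ?_
        by_cases hza : z ∈ Cb A f a 2
        · rw [indicator_of_mem (show z ∈ (K \ I) ∩ Cb A f a 2 from ⟨hz, hza⟩),
            ← ENNReal.ofReal_mul hC0]
          refine ENNReal.ofReal_le_ofReal (mul_le_mul (Wt_bd A hw hC0 hC a _).2 (det_le_Dm _ _)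
            (sq_nonneg _) hC0)
        · rw [Wt_cb A hw f a z hza]
          simp
    _ = ∑ a, ENNReal.ofReal C * ∫⁻ z in (K \ I) ∩ Cb A f a 2, ENNReal.ofReal (Dm (FF A f a) z) := by
        rw [lintegral_finsetSum _ fun a _ => ((hD a).indicator (hcb a)).const_mul _]
        refine Finset.sum_congr rfl fun a _ => ?_
        rw [lintegral_const_mul _ ((hD a).indicator (hcb a)), lintegral_indicator (hcb a),
          Measure.restrict_restrict (hcb a)]
        congr 3
        exact inter_eq_self_of_subset_left inter_subset_left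
    _ < ⊤ := by
        refine ENNReal.sum_lt_top.2 fun a _ => ENNReal.mul_lt_top ENNReal.ofReal_lt_top ?_
        exact hS.s1 K hK hKc a


theorem ll_bound (ho : T_OAO) (hcut : T_CUT) (hcst : T_CST) [CompactSpace X] (A : Atl n X ι)
    {w : ι → V n → ℝ} (hw : Gau A w) {f : V n → X} {I : Set (V n)} (hS : Sing A f I) :
    ∃ C1 : ℝ, 0 ≤ C1 ∧ ∀ t : ℝ, 1 ≤ t →
      ∫⁻ z in Dp n \ I, ENNReal.ofReal |LL A w f (fun x => chi x * rho t x) z| ≤
        ENNReal.ofReal C1 := by
  obtain ⟨C, hC0, hC⟩ := w_bdd A hw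
  obtain ⟨B, hB, -⟩ := hcst n X ι A w f I hw hS
  refine ⟨∑ _a : ι, ∑ _k : Fin n, C * |B|, by positivity, fun t ht => ?_⟩
  set φ : V n → ℝ := fun x => chi x * rho t x with hφ
  have hφ2 : ContDiff ℝ 2 φ := by
    exact (ContDiff.mul (hcut n).1 ((hcut n).2.2.2.1 t ht).1).of_le ENat.LEInfty.out
  have hm : ∀ a k, Measurable (fun z => ENNReal.ofReal |lev φ z (cf (FF A f a) k z)|) :=
    fun a k => (meas_lev hφ2 _ k).norm.ennreal_ofReal
  calc ∫⁻ z in Dp n \ I, ENNReal.ofReal |LL A w f φ z|
      ≤ ∫⁻ z in Dp n \ I, ∑ a, ∑ k, ENNReal.ofReal C * ((Dp n \ I) ∩ Cb A f a 2).indicator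
          (fun z => ENNReal.ofReal |lev φ z (cf (FF A f a) k z)|) z := by
        refine setLIntegral_mono' hS.opn.measurableSet fun z hz => ?_
        unfold LL
        refine (ENNReal.ofReal_le_ofReal (Finset.abs_sum_le_sum_abs _ _)).trans ?_
        rw [ENNReal.ofReal_sum_of_nonneg fun a _ => abs_nonneg _]
        refine Finset.sum_le_sum fun a _ => ?_
        by_cases hza : z ∈ Cb A f a 2
        · rw [abs_mul]
          refine (ENNReal.ofReal_le_ofReal (mul_le_mul_of_nonneg_left
            (Finset.abs_sum_le_sum_abs _ _) (abs_nonneg _))).trans ?_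
          rw [Finset.mul_sum, ENNReal.ofReal_sum_of_nonneg fun k _ =>
            mul_nonneg (abs_nonneg _) (abs_nonneg _)]
          refine Finset.sum_le_sum fun k _ => ?_
          rw [indicator_of_mem (show z ∈ (Dp n \ I) ∩ Cb A f a 2 from ⟨hz, hza⟩),
            ← ENNReal.ofReal_mul hC0]
          refine ENNReal.ofReal_le_ofReal (mul_le_mul_of_nonneg_right ?_ (abs_nonneg _))
          rw [abs_of_nonneg (Wt_bd A hw hC0 hC a _).1]
          exact (Wt_bd A hw hC0 hC a _).2
        · rw [Wt_cb A hw f a z hza]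
          simp
    _ = ∑ a, ∑ k, ENNReal.ofReal C * ∫⁻ z in (Dp n \ I) ∩ Cb A f a 2,
          ENNReal.ofReal |lev φ z (cf (FF A f a) k z)| := by
        rw [lintegral_finsetSum _ fun a _ => Finset.measurable_fun_sum _ fun k _ =>
          ((hm a k).indicator (cb_meas ho A hS a)).const_mul _]
        refine Finset.sum_congr rfl fun a _ => ?_
        rw [lintegral_finsetSum _ fun k _ =>
          ((hm a k).indicator (cb_meas ho A hS a)).const_mul _]
        refine Finset.sum_congr rfl fun k _ => ?_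
        rw [lintegral_const_mul _ ((hm a k).indicator (cb_meas ho A hS a)),
          lintegral_indicator (cb_meas ho A hS a), Measure.restrict_restrict (cb_meas ho A hS a)]
        congr 3
        exact inter_eq_self_of_subset_left inter_subset_left
    _ ≤ ∑ _a : ι, ∑ _k : Fin n, ENNReal.ofReal (C * |B|) := by
        refine Finset.sum_le_sum fun a _ => Finset.sum_le_sum fun k _ => ?_
        rw [ENNReal.ofReal_mul hC0]
        refine mul_le_mul_right ?_ _
        exact ((hB t ht a k).1).trans (ENNReal.ofReal_le_ofReal (le_abs_self _))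
    _ = ENNReal.ofReal (∑ _a : ι, ∑ _k : Fin n, C * |B|) := by
        rw [ENNReal.ofReal_sum_of_nonneg fun a _ => Finset.sum_nonneg fun _ _ => by positivity]
        refine Finset.sum_congr rfl fun a _ => ?_
        rw [ENNReal.ofReal_sum_of_nonneg fun a _ => by positivity]

/-- the averaging lemma -/
theorem averaging (hrnc : T_RNC) (heqd : T_EQD) [CompactSpace X]
    [ConnectedSpace X] (A : Atl n X ι) {w p : ι → V n → ℝ} {δ : ℝ} (hn : 1 ≤ n) (hw : Gau A w)
    (hp : ∀ a, Continuous (p a))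
    (hsup : ∀ a y, p a y ≠ 0 → y ∈ Metric.closedBall (0 : V n) (3 / 2)) (hδ : 0 < δ) :
    0 < ∑ a, ∫ y, w a y ∧
    ∃ ε : ℝ, 0 < ε ∧ ∃ T : Finset (ι × (V n → ℝ)), (∀ c ∈ T, ContDiff ℝ ∞ c.2 ∧
      ∀ y, c.2 y ≠ 0 → y ∈ Metric.closedBall (0 : V n) (3 / 2)) ∧
      ∀ (f : V n → X) (I : Set (V n)), Sing A f I → ∀ g : V n → ℝ, (∀ z ∈ Dp n \ I, 0 ≤ g z) →
        IntegrableOn (fun z => g z * PB A f w z) (Dp n \ I) →
        0 < ∫ z in Dp n \ I, g z * PB A f w z →
        (∀ c ∈ T, |∫ z in Dp n \ I, g z * PB A f (sgl c.1 (fun y => ∑ k, lev c.2 y (ek k))) z|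
          ≤ ε * ∫ z in Dp n \ I, g z * PB A f w z) →
        |(∫ z in Dp n \ I, g z * PB A f p z) - (∑ a, ∫ y, p a y) / (∑ a, ∫ y, w a y) *
            ∫ z in Dp n \ I, g z * PB A f w z|
          ≤ δ * ∫ z in Dp n \ I, g z * PB A f w z := by
  let _ : MeasurableSpace X := borel X
  have _ : BorelSpace X := ⟨rfl⟩
  obtain ⟨h1, ε, hε, T, hT, hE⟩ := heqd n X ι A w p δ hn hw hp hsup hδ
  refine ⟨h1, ε, hε, T, hT, fun f I hS g hg hint hpos hc => ?_⟩
  have hD := hS.opn.measurableSet
  set m := ∫ z in Dp n \ I, g z * PB A f w z with hm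
  set ν : Measure (V n) := (volume.restrict (Dp n \ I)).withDensity
    (fun z => ENNReal.ofReal (g z * PB A f w z)) with hν
  have hnn : 0 ≤ᵐ[volume.restrict (Dp n \ I)] fun z => g z * PB A f w z := by
    filter_upwards [ae_restrict_mem hD] with z hz
    exact mul_nonneg (hg z hz) (pb_nonneg A hw f z)
  have hνu : ν univ = ENNReal.ofReal m := by
    rw [hν, withDensity_apply _ MeasurableSet.univ, Measure.restrict_univ, hm,
      ofReal_integral_eq_lintegral_ofReal hint hnn]
  have hfm : AEMeasurable f ν :=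
    (hS.cont.aemeasurable hD).mono_ac (withDensity_absolutelyContinuous _ _)
  have hae : AEMeasurable (fun z => ENNReal.ofReal (g z * PB A f w z))
      (volume.restrict (Dp n \ I)) := hint.aestronglyMeasurable.aemeasurable.ennreal_ofReal
  set c : ℝ≥0∞ := (ENNReal.ofReal m)⁻¹ with hcd
  have hmo : ENNReal.ofReal m ≠ 0 := (ENNReal.ofReal_pos.2 hpos).ne'
  have hP : IsProbabilityMeasure (c • Measure.map f ν) := by
    refine ⟨?_⟩
    rw [Measure.smul_apply, Measure.map_apply_of_aemeasurable hfm MeasurableSet.univ,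
      preimage_univ, hνu, smul_eq_mul, hcd]
    exact ENNReal.inv_mul_cancel hmo ENNReal.ofReal_ne_top
  have key : ∀ q : ι → V n → ℝ, (∀ a, Continuous (q a)) →
      (∀ a y, q a y ≠ 0 → y ∈ Metric.closedBall (0 : V n) (3 / 2)) →
      ∫ x, rn A w q x ∂(c • Measure.map f ν) = m⁻¹ * ∫ z in Dp n \ I, g z * PB A f q z := by
    intro q hq hqs
    have hr := hrnc n X ι A w q hw hq hqs
    rw [integral_smul_measure, integral_map hfm hr.1.aestronglyMeasurable, hν,
      integral_withDensity_eq_integral_toReal_smul₀ hae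
        (Eventually.of_forall fun x => ENNReal.ofReal_lt_top), hcd, ENNReal.toReal_inv,
      ENNReal.toReal_ofReal hpos.le, smul_eq_mul]
    congr 1
    refine integral_congr_ae ?_
    filter_upwards [ae_restrict_mem hD, hnn] with z hz hz2
    rw [ENNReal.toReal_ofReal hz2, smul_eq_mul, hr.2.2.2.2 f I hS z hz]
    ring
  have hfin := hE (c • Measure.map f ν) hP ?_
  · rw [key p hp hsup] at hfin
    have h2 : (∫ z in Dp n \ I, g z * PB A f p z) - (∑ a, ∫ y, p a y) / (∑ a, ∫ y, w a y) * m =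
        m * ((m⁻¹ * ∫ z in Dp n \ I, g z * PB A f p z) -
          (∑ a, ∫ y, p a y) / (∑ a, ∫ y, w a y)) := by
      rw [mul_sub, mul_inv_cancel_left₀ hpos.ne']
      ring
    rw [h2, abs_mul, abs_of_pos hpos, mul_comm δ m]
    exact mul_le_mul_of_nonneg_left hfin hpos.le
  · intro c' hc'
    have hcs := hT c' hc'
    rw [key]
    · rw [abs_mul, abs_of_pos (inv_pos.2 hpos), inv_mul_le_iff₀ hpos, mul_comm m ε]
      exact hc c' hc'
    · intro a
      unfold sgl
      by_cases ha : a = c'.1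
      · simp only [ha, if_true]
        exact continuous_finsetSum _ fun k _ => lev_cont hcs.1 _
      · simp only [ha, if_false]; exact continuous_const
    · intro a y hy
      unfold sgl at hy
      by_cases ha : a = c'.1
      · simp only [ha, if_true] at hy
        by_contra hne
        refine hy (Finset.sum_eq_zero fun k _ => lev_van fun h => hne ?_)
        have : tsupport c'.2 ⊆ Metric.closedBall (0 : V n) (3 / 2) :=
          closure_minimal (fun y hy => hcs.2 y hy) Metric.isClosed_closedBall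
        exact this h
      · simp only [ha, if_false] at hy; exact absurd rfl hy

end

end Pool.Agent.H24.VG
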