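import Pool.Agent.H24.VG.AVG

/-!
# VG module CLA: Claim A, windows have bounded mass
-/

open MeasureTheory Set Filter Topology
open scoped ENNReal NNReal ContDiff ComplexConjugate

namespace Pool.Agent.H24.VG

open Pool.Agent.H95.VG

/-! ## The functions `θ = arctan exp` and `ψ = θ'` -/

/-- `arctan (exp (κ (s - s₀)))` -/
noncomputable def th (κ s₀ s : ℝ) : ℝ := Real.arctan (Real.exp (κ * (s - s₀)))

/-- denominator -/
noncomputable def dn (κ s₀ s : ℝ) : ℝ := Real.exp (κ * (s - s₀)) + Real.exp (-(κ * (s - s₀)))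

/-- difference -/
noncomputable def df (κ s₀ s : ℝ) : ℝ := Real.exp (κ * (s - s₀)) - Real.exp (-(κ * (s - s₀)))

/-- the derivative of `th` -/
noncomputable def ps (κ s₀ s : ℝ) : ℝ := κ / dn κ s₀ s

theorem dn_pos (κ s₀ s : ℝ) : 0 < dn κ s₀ s := add_pos (Real.exp_pos _) (Real.exp_pos _)

theorem exp_mul_exp_neg (a : ℝ) : Real.exp a * Real.exp (-a) = 1 := by
  rw [← Real.exp_add, add_neg_cancel, Real.exp_zero]

theorem dn_ge (κ s₀ s : ℝ) : 2 ≤ dn κ s₀ s := by
  have h := exp_mul_exp_neg (κ * (s - s₀))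
  unfold dn
  nlinarith [sq_nonneg (Real.exp (κ * (s - s₀)) - Real.exp (-(κ * (s - s₀)))),
    Real.exp_pos (κ * (s - s₀)), Real.exp_pos (-(κ * (s - s₀)))]

theorem df_le (κ s₀ s : ℝ) : |df κ s₀ s| ≤ dn κ s₀ s := by
  have h1 := Real.exp_pos (κ * (s - s₀))
  have h2 := Real.exp_pos (-(κ * (s - s₀)))
  unfold df dn
  rw [abs_le]
  constructor <;> linarith

theorem lin_der (κ s₀ s : ℝ) : HasDerivAt (fun s => κ * (s - s₀)) κ s := by
  simpa using ((hasDerivAt_id s).sub_const s₀).const_mul κ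

theorem dn_der (κ s₀ s : ℝ) : HasDerivAt (dn κ s₀) (κ * df κ s₀ s) s := by
  have h1 := (lin_der κ s₀ s).exp
  have h2 := (lin_der κ s₀ s).neg.exp
  refine (h1.add h2).congr_deriv ?_
  unfold df
  simp only [Pi.neg_apply]
  ring

theorem df_der (κ s₀ s : ℝ) : HasDerivAt (df κ s₀) (κ * dn κ s₀ s) s := by
  have h1 := (lin_der κ s₀ s).exp
  have h2 := (lin_der κ s₀ s).neg.exp
  refine (h1.sub h2).congr_deriv ?_
  unfold dn
  simp only [Pi.neg_apply]
  ring

theorem th_der (κ s₀ s : ℝ) : HasDerivAt (th κ s₀) (ps κ s₀ s) s := by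
  have h1 := (lin_der κ s₀ s).exp.arctan
  refine h1.congr_deriv ?_
  have h := exp_mul_exp_neg (κ * (s - s₀))
  unfold ps dn
  have h3 := Real.exp_pos (κ * (s - s₀))
  have h4 := Real.exp_pos (-(κ * (s - s₀)))
  have h5 : 0 < 1 + Real.exp (κ * (s - s₀)) ^ 2 := by positivity
  rw [div_mul_eq_mul_div, div_eq_div_iff h5.ne' (by positivity)]
  linear_combination κ * h

theorem deriv_th (κ s₀ : ℝ) : deriv (th κ s₀) = ps κ s₀ := funext fun s => (th_der κ s₀ s).deriv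

theorem ps_der (κ s₀ s : ℝ) :
    HasDerivAt (ps κ s₀) (-(κ ^ 2 * df κ s₀ s / dn κ s₀ s ^ 2)) s := by
  have h := (hasDerivAt_const s κ).div (dn_der κ s₀ s) (dn_pos κ s₀ s).ne'
  refine h.congr_deriv ?_
  ring

theorem deriv_ps (κ s₀ : ℝ) :
    deriv (ps κ s₀) = fun s => -(κ ^ 2 * df κ s₀ s / dn κ s₀ s ^ 2) :=
  funext fun s => (ps_der κ s₀ s).deriv

theorem dps_der (κ s₀ s : ℝ) : HasDerivAt (deriv (ps κ s₀))
    (-(κ ^ 3 * (dn κ s₀ s ^ 2 - 2 * df κ s₀ s ^ 2) / dn κ s₀ s ^ 3)) s := by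
  rw [deriv_ps]
  have hp := dn_pos κ s₀ s
  have h := (((df_der κ s₀ s).const_mul (κ ^ 2)).div ((dn_der κ s₀ s).pow 2)
    (pow_pos hp 2).ne').neg
  refine h.congr_deriv ?_
  simp only [Pi.pow_apply]
  field_simp
  ring

theorem ps_cd (κ s₀ : ℝ) : ContDiff ℝ ∞ (ps κ s₀) := by
  have hl : ContDiff ℝ ∞ (fun s : ℝ => κ * (s - s₀)) :=
    contDiff_const.mul (contDiff_id.sub contDiff_const)
  exact contDiff_const.div (hl.exp.add hl.neg.exp) fun s => (dn_pos κ s₀ s).ne'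

theorem th_cd (κ s₀ : ℝ) : ContDiff ℝ ∞ (th κ s₀) := by
  have hl : ContDiff ℝ ∞ (fun s : ℝ => κ * (s - s₀)) :=
    contDiff_const.mul (contDiff_id.sub contDiff_const)
  exact Real.contDiff_arctan.comp hl.exp

theorem ps_pos {κ : ℝ} (hκ : 0 < κ) (s₀ s : ℝ) : 0 < ps κ s₀ s := div_pos hκ (dn_pos _ _ _)

theorem ps_le {κ : ℝ} (hκ : 0 < κ) (s₀ s : ℝ) : ps κ s₀ s ≤ κ := by
  unfold ps
  rw [div_le_iff₀ (dn_pos _ _ _)]
  nlinarith [dn_ge κ s₀ s]

theorem dps_le {κ : ℝ} (hκ : 0 < κ) (s₀ s : ℝ) : |deriv (ps κ s₀) s| ≤ κ * ps κ s₀ s := by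
  have hp := dn_pos κ s₀ s
  rw [deriv_ps, abs_neg, abs_div, abs_mul, abs_of_pos (pow_pos hκ 2), abs_of_pos (pow_pos hp 2)]
  unfold ps
  rw [div_le_iff₀ (pow_pos hp 2)]
  have : κ * (κ / dn κ s₀ s) * dn κ s₀ s ^ 2 = κ ^ 2 * dn κ s₀ s := by
    field_simp
  rw [this]
  exact mul_le_mul_of_nonneg_left (df_le _ _ _) (sq_nonneg _)

theorem ddps_le {κ : ℝ} (hκ : 0 < κ) (s₀ s : ℝ) :
    |deriv (deriv (ps κ s₀)) s| ≤ κ ^ 2 * ps κ s₀ s := by
  have hp := dn_pos κ s₀ s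
  rw [(dps_der κ s₀ s).deriv, abs_neg, abs_div, abs_mul, abs_of_pos (pow_pos hκ 3),
    abs_of_pos (pow_pos hp 3)]
  unfold ps
  rw [div_le_iff₀ (pow_pos hp 3)]
  have : κ ^ 2 * (κ / dn κ s₀ s) * dn κ s₀ s ^ 3 = κ ^ 3 * dn κ s₀ s ^ 2 := by
    field_simp
  rw [this]
  refine mul_le_mul_of_nonneg_left ?_ (pow_nonneg hκ.le _)
  have h1 : df κ s₀ s ^ 2 ≤ dn κ s₀ s ^ 2 := by
    rw [← sq_abs (df κ s₀ s)]
    exact pow_le_pow_left₀ (abs_nonneg _) (df_le _ _ _) 2
  rw [abs_le]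
  constructor <;> nlinarith [sq_nonneg (df κ s₀ s)]

theorem th_le (κ s₀ s : ℝ) : |th κ s₀ s| ≤ 2 := by
  unfold th
  have h1 := Real.arctan_lt_pi_div_two (Real.exp (κ * (s - s₀)))
  have h2 := Real.neg_pi_div_two_lt_arctan (Real.exp (κ * (s - s₀)))
  have h3 := Real.pi_lt_d2
  rw [abs_le]
  constructor <;> linarith

theorem ps_ge {κ : ℝ} (hκ : 0 < κ) {s₀ s : ℝ} (h : |s - s₀| ≤ 1) :
    κ / (2 * Real.exp κ) ≤ ps κ s₀ s := by
  unfold ps
  refine div_le_div_of_nonneg_left hκ.le (dn_pos _ _ _) ?_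
  unfold dn
  rw [abs_le] at h
  have h1 : Real.exp (κ * (s - s₀)) ≤ Real.exp κ := Real.exp_le_exp.2 (by nlinarith)
  have h2 : Real.exp (-(κ * (s - s₀))) ≤ Real.exp κ := Real.exp_le_exp.2 (by nlinarith)
  linarith

/-! ## Integrability -/

variable {n : ℕ} {X : Type} [TopologicalSpace X] {ι : Type} [T2Space X] [Fintype ι]

/-- integrability of bounded functions supported in a compact set -/
theorem int_cs (hs : T_SMO) (ho : T_OAO) (A : Atl n X ι) {w : ι → V n → ℝ} (hw : Gau A w)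
    {f : V n → X} {I : Set (V n)} (hS : Sing A f I) {p : ι → V n → ℝ}
    (hp : ∀ a, Continuous (p a))
    (hsup : ∀ a y, p a y ≠ 0 → y ∈ Metric.closedBall (0 : V n) (3 / 2)) {C : ℝ}
    (hC : ∀ z ∈ Dp n \ I, |PB A f p z| ≤ C * PB A f w z) {g : V n → ℝ}
    (hg : ContinuousOn g (Dp n \ I)) {B : ℝ} (hB : ∀ z ∈ Dp n \ I, |g z| ≤ B) {K : Set (V n)}
    (hK : K ⊆ Dp n) (hKc : IsCompact K) (hgK : ∀ z ∈ Dp n \ I, g z ≠ 0 → z ∈ K) :
    IntegrableOn (fun z => g z * PB A f p z) (Dp n \ I) := by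
  have hD := hS.opn.measurableSet
  refine ⟨(hg.mul (pb_cont hs ho A hS hp hsup)).aestronglyMeasurable hD, ?_⟩
  have hKI : K \ I = (Dp n \ I) ∩ K := by
    ext z; constructor
    · rintro ⟨h1, h2⟩; exact ⟨⟨hK h1, h2⟩, h1⟩
    · rintro ⟨⟨h1, h2⟩, h3⟩; exact ⟨h3, h2⟩
  have hKm : MeasurableSet (K \ I) := by
    rw [hKI]; exact hS.opn.measurableSet.inter hKc.measurableSet
  change ∫⁻ z in Dp n \ I, ‖g z * PB A f p z‖ₑ < ⊤
  have h1 : ∫⁻ z in Dp n \ I, ‖g z * PB A f p z‖ₑ ≤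
      ∫⁻ z in Dp n \ I, (K \ I).indicator
        (fun z => ENNReal.ofReal (|B| * |C|) * ENNReal.ofReal (PB A f w z)) z := by
    refine setLIntegral_mono' hD fun z hz => ?_
    by_cases hz0 : g z = 0
    · rw [hz0, zero_mul, enorm_zero]; exact zero_le
    · rw [indicator_of_mem (show z ∈ K \ I from ⟨hgK z hz hz0, hz.2⟩),
        ← ENNReal.ofReal_mul (by positivity), Real.enorm_eq_ofReal_abs]
      refine ENNReal.ofReal_le_ofReal ?_
      rw [abs_mul, mul_assoc]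
      have hpw := pb_nonneg A hw f z
      refine mul_le_mul ((hB z hz).trans (le_abs_self _)) ((hC z hz).trans
        (mul_le_mul_of_nonneg_right (le_abs_self _) hpw)) (abs_nonneg _) (abs_nonneg _)
  refine h1.trans_lt ?_
  rw [lintegral_indicator hKm, Measure.restrict_restrict hKm,
    inter_eq_self_of_subset_left (show K \ I ⊆ Dp n \ I from fun z hz => ⟨hK hz.1, hz.2⟩),
    lintegral_const_mul' _ _ ENNReal.ofReal_ne_top]
  exact ENNReal.mul_lt_top ENNReal.ofReal_lt_top (pb_fin ho A hw hS hK hKc)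

omit [T2Space X] in
/-- the family `w` itself -/
theorem self_bd (A : Atl n X ι) {w : ι → V n → ℝ} (hw : Gau A w) (f : V n → X) (z : V n) :
    |PB A f w z| ≤ 1 * PB A f w z := by
  rw [abs_of_nonneg (pb_nonneg A hw f z), one_mul]

/-- the closed shell `a ≤ nsq ≤ b` in `Dp` -/
theorem shell_compact {a b : ℝ} (ha : 0 < a) (hb : b < 1) :
    IsCompact {z : V n | a ≤ nsq z ∧ nsq z ≤ b} ∧ {z : V n | a ≤ nsq z ∧ nsq z ≤ b} ⊆ Dp n := by
  have hc : Continuous (nsq (n := n)) := by unfold nsq; fun_prop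
  refine ⟨?_, fun z hz => ⟨ha.trans_le hz.1, hz.2.trans_lt hb⟩⟩
  refine Metric.isCompact_of_isClosed_isBounded ?_ ?_
  · exact (isClosed_le continuous_const hc).inter (isClosed_le hc continuous_const)
  · refine (Metric.isBounded_closedBall (x := (0 : V n)) (r := 1)).subset fun z hz => ?_
    rw [mem_closedBall_zero_iff, pi_norm_le_iff_of_nonneg zero_le_one]
    intro i
    have h1 : ‖z i‖ ^ 2 ≤ nsq z := Finset.single_le_sum (f := fun i => ‖z i‖ ^ 2)
      (fun _ _ => sq_nonneg _) (Finset.mem_univ i)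
    have h2 : ‖z i‖ ^ 2 ≤ 1 := h1.trans (hz.2.trans hb.le)
    nlinarith [norm_nonneg (z i)]

/-- the main estimate -/
theorem cla_main (hs : T_SMO) (ho : T_OAO) (hrnc : T_RNC) (heqd : T_EQD) (hkbd : T_KBD)
    (hidn : T_IDN) (hnha : T_NHA) (hcst : T_CST) (hcut : T_CUT)
    [CompactSpace X] [ConnectedSpace X] (A : Atl n X ι) {w : ι → V n → ℝ} {f : V n → X}
    {I : Set (V n)} {h : ι → V n → ℝ} {η : V n → ℝ} (hw : Gau A w) (hS : Sing A f I)
    (hh : Clo A h) (hη : Eta A f I h η) (hk : kap w h < 0) :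
    ∃ κ C : ℝ, 0 < κ ∧ ∀ s t : ℝ, 1 ≤ t →
      IntegrableOn (fun z => chi z * rho t z * ps κ s (η z) * PB A f w z) (Dp n \ I) ∧
      ∫ z in Dp n \ I, chi z * rho t z * ps κ s (η z) * PB A f w z ≤ C := by
  have hn : 1 ≤ n := one_le_two.trans hS.two
  have hD := hS.opn.measurableSet
  obtain ⟨hkc, hks, hkk, CK, hCK⟩ := hkbd n X ι A w h hw hh
  have hk1 : ∀ a, Continuous (k1 w h a) := fun a => (hkc a).1
  have hk2 : ∀ a, Continuous (k2 w h a) := fun a => (hkc a).2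
  have hs1 : ∀ a y, k1 w h a y ≠ 0 → y ∈ Metric.closedBall (0 : V n) (3 / 2) :=
    fun a y hy => hks a y (Or.inl hy)
  have hs2 : ∀ a y, k2 w h a y ≠ 0 → y ∈ Metric.closedBall (0 : V n) (3 / 2) :=
    fun a y hy => hks a y (Or.inr hy)
  have hW := (averaging hrnc heqd A hn hw hk1 hs1 one_pos).1
  set a0 : ℝ := -(kap w h / ∑ a, ∫ y, w a y) with ha0
  have ha0p : 0 < a0 := by rw [ha0, neg_pos]; exact div_neg_of_neg_of_pos hk hW
  obtain ⟨-, ε, hε, T, hT, hav⟩ := averaging hrnc heqd A hn hw hk1 hs1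
    (show (0 : ℝ) < a0 / 4 by positivity)
  have hN : ∀ c : T, ∃ C : ℝ, 0 ≤ C ∧ ∀ (τ : ℝ → ℝ) (B t : ℝ), 1 ≤ t → ContDiff ℝ 2 τ →
      (∀ s, |τ s| ≤ B) → (∃ B' : ℝ, ∀ s, |deriv τ s| ≤ B' ∧ |deriv (deriv τ) s| ≤ B') →
      |∫ z in Dp n \ I, chi z * rho t z * τ (η z) *
          PB A f (sgl c.1.1 (fun y => ∑ k, lev c.1.2 y (ek k))) z|
        ≤ C * B + C * ∫ z in Dp n \ I, chi z * rho t z *
          (|deriv τ (η z)| + |deriv (deriv τ) (η z)|) * PB A f w z := fun c =>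
    hnha n X ι A w f I h η hw hS hh hη c.1.1 c.1.2 (hT c.1 c.2).1 (hT c.1 c.2).2
  choose CN hCN0 hCN using hN
  set CS : ℝ := ∑ c : T, CN c with hCS
  have hCS0 : 0 ≤ CS := Finset.sum_nonneg fun c _ => hCN0 c
  have hCNS : ∀ c, CN c ≤ CS := fun c =>
    Finset.single_le_sum (f := CN) (fun c _ => hCN0 c) (Finset.mem_univ c)
  obtain ⟨C1, hC10, hC1⟩ := ll_bound ho hcut hcst A hw hS
  set κ : ℝ := min 1 (min (ε / (3 * (CS + 1))) (a0 / (4 * (|CK| + 1)))) with hκd
  have hκ : 0 < κ := by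
    refine lt_min one_pos (lt_min (by positivity) (by positivity))
  have hκ1 : κ ≤ 1 := min_le_left _ _
  have hκ2 : 3 * (CS + 1) * κ ≤ ε := by
    have : κ ≤ ε / (3 * (CS + 1)) := (min_le_right _ _).trans (min_le_left _ _)
    rw [le_div_iff₀ (by positivity)] at this
    linarith
  have hκ3 : 4 * (|CK| + 1) * κ ≤ a0 := by
    have : κ ≤ a0 / (4 * (|CK| + 1)) := (min_le_right _ _).trans (min_le_right _ _)
    rw [le_div_iff₀ (by positivity)] at this
    linarith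
  refine ⟨κ, max 1 (4 * C1 / a0), hκ, fun s t ht => ?_⟩
  obtain ⟨hchi, -, hchi1, hrho, -⟩ := hcut n
  obtain ⟨hrt, hrt1, hcs, hts⟩ := hrho t ht
  have hchic : Continuous (chi (n := n)) := hchi.continuous
  have hrtc : Continuous (rho (n := n) t) := hrt.continuous
  have hKc : IsCompact (tsupport (fun z : V n => chi z * rho t z)) := hcs
  have hprod : ∀ z : V n, 0 ≤ chi z * rho t z ∧ chi z * rho t z ≤ 1 := fun z =>
    ⟨mul_nonneg (hchi1 z).1 (hrt1 z).1, mul_le_one₀ (hchi1 z).2.1 (hrt1 z).1 (hrt1 z).2.1⟩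
  -- integrability for bounded continuous functions of `η`
  have hint : ∀ (p : ι → V n → ℝ) (C : ℝ), (∀ a, Continuous (p a)) →
      (∀ a y, p a y ≠ 0 → y ∈ Metric.closedBall (0 : V n) (3 / 2)) →
      (∀ z ∈ Dp n \ I, |PB A f p z| ≤ C * PB A f w z) → ∀ (u : ℝ → ℝ) (B : ℝ), Continuous u →
      (∀ s, |u s| ≤ B) →
      IntegrableOn (fun z => chi z * rho t z * u (η z) * PB A f p z) (Dp n \ I) := by
    intro p C hp hps hpC u B hu huB
    refine int_cs hs ho A hw hS hp hps hpC (g := fun z => chi z * rho t z * u (η z))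
      (((hchic.mul hrtc).continuousOn).mul (hu.comp_continuousOn hη.cont)) (B := 1 * B)
      (fun z _ => ?_) hts hKc fun z _ hz => ?_
    · rw [abs_mul, abs_of_nonneg (hprod z).1]
      exact mul_le_mul (hprod z).2 (huB _) (abs_nonneg _) zero_le_one
    · exact subset_tsupport _ fun h0 => hz (by rw [show chi z * rho t z = 0 from h0, zero_mul])
  have hwc : ∀ a, Continuous (w a) := fun a => (hw.smooth a).continuous
  have hwi := fun u B hu huB => hint w 1 hwc hw.supp (fun z _ => self_bd A hw f z) u B hu huB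
  have hi1 := fun u B hu huB => hint (k1 w h) CK hk1 hs1 (fun z hz => (hCK f I hS z hz).1) u B
    hu huB
  have hi2 := fun u B hu huB => hint (k2 w h) CK hk2 hs2 (fun z hz => (hCK f I hS z hz).2) u B
    hu huB
  have hpsc : Continuous (ps κ s) := (ps_cd κ s).continuous
  have hdpc : Continuous (deriv (ps κ s)) := (ps_cd κ s).continuous_deriv (by simp)
  have hddpc : Continuous (deriv (deriv (ps κ s))) :=
    ((ps_cd κ s).iterate_deriv 2).continuous
  have hb0 : ∀ r, |ps κ s r| ≤ κ := fun r => by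
    rw [abs_of_pos (ps_pos hκ s r)]; exact ps_le hκ s r
  have hb1 : ∀ r, |deriv (ps κ s) r| ≤ κ * κ := fun r =>
    (dps_le hκ s r).trans (mul_le_mul_of_nonneg_left (ps_le hκ s r) hκ.le)
  have hb2 : ∀ r, |deriv (deriv (ps κ s)) r| ≤ κ ^ 2 * κ := fun r =>
    (ddps_le hκ s r).trans (mul_le_mul_of_nonneg_left (ps_le hκ s r) (sq_nonneg _))
  have hIw := hwi (ps κ s) κ hpsc hb0
  refine ⟨hIw, ?_⟩
  set m := ∫ z in Dp n \ I, chi z * rho t z * ps κ s (η z) * PB A f w z with hm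
  by_contra hcon
  push Not at hcon
  have hm1 : 1 < m := (le_max_left _ _).trans_lt hcon
  have hm2 : 4 * C1 / a0 < m := (le_max_right _ _).trans_lt hcon
  have hm0 : 0 < m := one_pos.trans hm1
  -- near harmonicity
  have hder : ∫ z in Dp n \ I, chi z * rho t z *
      (|deriv (ps κ s) (η z)| + |deriv (deriv (ps κ s)) (η z)|) * PB A f w z ≤
      (κ + κ ^ 2) * m := by
    rw [hm, ← integral_const_mul]
    refine setIntegral_mono_on ?_ (hIw.const_mul _) hD fun z hz => ?_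
    · exact hwi (fun r => |deriv (ps κ s) r| + |deriv (deriv (ps κ s)) r|) (κ * κ + κ ^ 2 * κ)
        (hdpc.abs.add hddpc.abs) fun r => by
          rw [abs_of_nonneg (by positivity)]
          exact add_le_add (hb1 r) (hb2 r)
    · have h1 := dps_le hκ s (η z)
      have h2 := ddps_le hκ s (η z)
      have h3 := (hprod z).1
      have h4 := pb_nonneg A hw f z
      have h5 : |deriv (ps κ s) (η z)| + |deriv (deriv (ps κ s)) (η z)| ≤
          (κ + κ ^ 2) * ps κ s (η z) := by linarith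
      calc chi z * rho t z * (|deriv (ps κ s) (η z)| + |deriv (deriv (ps κ s)) (η z)|) *
            PB A f w z ≤ chi z * rho t z * ((κ + κ ^ 2) * ps κ s (η z)) * PB A f w z :=
            mul_le_mul_of_nonneg_right (mul_le_mul_of_nonneg_left h5 h3) h4
        _ = _ := by ring
  have hps2 : ContDiff ℝ 2 (ps κ s) := (ps_cd κ s).of_le ENat.LEInfty.out
  have hcond : ∀ c ∈ T, |∫ z in Dp n \ I, chi z * rho t z * ps κ s (η z) *
      PB A f (sgl c.1 (fun y => ∑ k, lev c.2 y (ek k))) z| ≤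
      ε * ∫ z in Dp n \ I, chi z * rho t z * ps κ s (η z) * PB A f w z := by
    intro c hc
    refine (hCN ⟨c, hc⟩ (ps κ s) κ t ht hps2 hb0 ⟨κ * κ + κ ^ 2 * κ, fun r => ⟨?_, ?_⟩⟩).trans ?_
    · exact (hb1 r).trans (le_add_of_nonneg_right (by positivity))
    · exact (hb2 r).trans (le_add_of_nonneg_left (by positivity))
    · rw [← hm]
      have h1 := hCN0 ⟨c, hc⟩
      have h2 := hCNS ⟨c, hc⟩
      have h3 : CN ⟨c, hc⟩ * ∫ z in Dp n \ I, chi z * rho t z *
          (|deriv (ps κ s) (η z)| + |deriv (deriv (ps κ s)) (η z)|) * PB A f w z ≤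
          CN ⟨c, hc⟩ * ((κ + κ ^ 2) * m) := mul_le_mul_of_nonneg_left hder h1
      have h4 : κ ^ 2 ≤ κ := by nlinarith
      have h5 : CN ⟨c, hc⟩ * κ + CN ⟨c, hc⟩ * ((κ + κ ^ 2) * m) ≤ 3 * CN ⟨c, hc⟩ * κ * m := by
        have h6 : (κ + κ ^ 2) * m ≤ 2 * κ * m := by nlinarith
        have h7 : κ ≤ κ * m := by nlinarith
        have h8 : κ + (κ + κ ^ 2) * m ≤ 3 * κ * m := by linarith
        nlinarith [mul_le_mul_of_nonneg_left h8 h1]
      have h9 : 3 * CN ⟨c, hc⟩ * κ * m ≤ ε * m := by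
        refine mul_le_mul_of_nonneg_right ?_ hm0.le
        nlinarith
      linarith
  have hmain := hav f I hS (fun z => chi z * rho t z * ps κ s (η z))
    (fun z _ => mul_nonneg (hprod z).1 (ps_pos hκ _ _).le) hIw hm0 hcond
  rw [← hm, hkk] at hmain
  have hJ1 : ∫ z in Dp n \ I, chi z * rho t z * ps κ s (η z) * PB A f (k1 w h) z ≤
      -(3 / 4 * a0 * m) := by
    have h1 := (abs_le.1 hmain).2
    have h2 : kap w h / (∑ a, ∫ y, w a y) = -a0 := by rw [ha0, neg_neg]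
    rw [h2] at h1
    linarith
  have hJ2 : ∫ z in Dp n \ I, chi z * rho t z * deriv (ps κ s) (η z) * PB A f (k2 w h) z ≤
      |CK| * κ * m := by
    rw [hm, ← integral_const_mul]
    refine setIntegral_mono_on (hi2 _ _ hdpc hb1) (hIw.const_mul _) hD fun z hz => ?_
    have h1 := dps_le hκ s (η z)
    have h2 : |PB A f (k2 w h) z| ≤ |CK| * PB A f w z := ((hCK f I hS z hz).2).trans
      (mul_le_mul_of_nonneg_right (le_abs_self _) (pb_nonneg A hw f z))
    have h3 := (hprod z).1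
    calc chi z * rho t z * deriv (ps κ s) (η z) * PB A f (k2 w h) z
        = chi z * rho t z * (deriv (ps κ s) (η z) * PB A f (k2 w h) z) := by ring
      _ ≤ chi z * rho t z * (κ * ps κ s (η z) * (|CK| * PB A f w z)) := by
          refine mul_le_mul_of_nonneg_left ((le_abs_self _).trans ?_) h3
          rw [abs_mul]
          exact mul_le_mul h1 h2 (abs_nonneg _) (mul_nonneg hκ.le (ps_pos hκ _ _).le)
      _ = _ := by ring
  -- the identity
  have hid := (hidn n X ι A w f I h η hw hS hh hη (th κ s) (fun x => chi x * rho t x)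
    ((th_cd κ s).of_le ENat.LEInfty.out) ?_ ?_ hcs hts).2.2
  rotate_left
  · refine ⟨max 2 (max κ (κ * κ)), fun r => ⟨(th_le κ s r).trans (le_max_left _ _), ?_, ?_⟩⟩
    · rw [deriv_th]; exact (hb0 r).trans ((le_max_left _ _).trans (le_max_right _ _))
    · rw [deriv_th]; exact (hb1 r).trans ((le_max_right _ _).trans (le_max_right _ _))
  · exact (hchi.mul hrt).of_le ENat.LEInfty.out
  rw [deriv_th] at hid
  have hsplit : ∫ z in Dp n \ I, chi z * rho t z * (ps κ s (η z) * PB A f (k1 w h) z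
      + deriv (ps κ s) (η z) * PB A f (k2 w h) z) =
      (∫ z in Dp n \ I, chi z * rho t z * ps κ s (η z) * PB A f (k1 w h) z) +
      ∫ z in Dp n \ I, chi z * rho t z * deriv (ps κ s) (η z) * PB A f (k2 w h) z := by
    rw [← integral_add (hi1 _ _ hpsc hb0) (hi2 _ _ hdpc hb1)]
    refine integral_congr_ae (Eventually.of_forall fun z => ?_)
    simp only
    ring
  have hLL : -(2 * C1) ≤ ∫ z in Dp n \ I, th κ s (η z) *
      LL A w f (fun x => chi x * rho t x) z := by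
    have h1 := enorm_integral_le_lintegral_enorm (μ := volume.restrict (Dp n \ I))
      (fun z => th κ s (η z) * LL A w f (fun x => chi x * rho t x) z)
    have h2 : ∫⁻ z in Dp n \ I, ‖th κ s (η z) * LL A w f (fun x => chi x * rho t x) z‖ₑ ≤
        ENNReal.ofReal (2 * C1) := by
      calc ∫⁻ z in Dp n \ I, ‖th κ s (η z) * LL A w f (fun x => chi x * rho t x) z‖ₑ
          ≤ ∫⁻ z in Dp n \ I, ENNReal.ofReal 2 *
              ENNReal.ofReal |LL A w f (fun x => chi x * rho t x) z| := by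
            refine lintegral_mono fun z => ?_
            rw [Real.enorm_eq_ofReal_abs, abs_mul, ← ENNReal.ofReal_mul zero_le_two]
            exact ENNReal.ofReal_le_ofReal (mul_le_mul_of_nonneg_right (th_le _ _ _)
              (abs_nonneg _))
        _ ≤ ENNReal.ofReal (2 * C1) := by
            rw [lintegral_const_mul' _ _ ENNReal.ofReal_ne_top, ENNReal.ofReal_mul zero_le_two]
            exact mul_le_mul_right (hC1 t ht) _
    have h3 := h1.trans h2
    rw [Real.enorm_eq_ofReal_abs, ENNReal.ofReal_le_ofReal_iff (by positivity)] at h3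
    exact (abs_le.1 h3).1
  rw [hid, hsplit] at hLL
  have h5 : |CK| * κ * m ≤ a0 / 4 * m := by
    refine mul_le_mul_of_nonneg_right ?_ hm0.le
    nlinarith
  rw [div_lt_iff₀ ha0p] at hm2
  nlinarith

theorem cla (hs : T_SMO) (ho : T_OAO) (hrnc : T_RNC) (heqd : T_EQD) (hkbd : T_KBD)
    (hidn : T_IDN) (hnha : T_NHA) (hcst : T_CST) (hcut : T_CUT) : T_CLA := by
  intro n X _ _ _ _ ι _ A w f I h η hw hS hh hη hk
  obtain ⟨κ, C, hκ, hC⟩ := cla_main hs ho hrnc heqd hkbd hidn hnha hcst hcut A hw hS hh hη hk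
  have hD := hS.opn.measurableSet
  obtain ⟨hchi, -, hchi1, hrho, -⟩ := hcut n
  obtain ⟨hKc, hKs⟩ := shell_compact (n := n) (a := 1 / 4) (b := 1 / 2) (by norm_num)
    (by norm_num)
  have hfin := pb_fin ho A hw hS hKs hKc
  set F := ∫⁻ z in {z : V n | 1 / 4 ≤ nsq z ∧ nsq z ≤ 1 / 2} \ I, ENNReal.ofReal (PB A f w z)
    with hF
  set c0 : ℝ := κ / (2 * Real.exp κ) with hc0
  have hc0p : 0 < c0 := by positivity
  refine ⟨c0⁻¹ * |C| + F.toReal, fun s => ?_⟩
  set E : ℕ → Set (V n) := fun j => (Dp n \ I) ∩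
    {z | nsq z ≤ 1 / 4 ∧ |η z - s| ≤ 1 ∧ -((j : ℝ) + 1) ≤ lu z} with hE
  have hmono : Directed (· ⊆ ·) E := by
    refine Monotone.directed_le fun i j hij z hz => ⟨hz.1, hz.2.1, hz.2.2.1, ?_⟩
    have : (i : ℝ) ≤ j := by exact_mod_cast hij
    linarith [hz.2.2.2]
  have hEm : ∀ j, MeasurableSet (E j) := by
    intro j
    have hcn : Continuous (nsq (n := n)) := by unfold nsq; fun_prop
    have hlm : Measurable (lu (n := n)) := by
      unfold lu; exact (Real.measurable_log.comp hcn.measurable).div_const _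
    have h1 : E j = ((Dp n \ I) ∩ (fun z => |η z - s|) ⁻¹' (Iic 1)) ∩
        {z | nsq z ≤ 1 / 4 ∧ -((j : ℝ) + 1) ≤ lu z} := by
      ext z; simp only [hE, mem_inter_iff, mem_ofPred_eq, mem_preimage, mem_Iic]; tauto
    rw [h1]
    refine MeasurableSet.inter ?_ ?_
    · obtain ⟨U, hU, hUe⟩ := (continuousOn_iff_isClosed.1
        ((hη.cont.sub continuousOn_const).abs (f := fun z => η z - s))) (Iic 1) isClosed_Iic
      rw [inter_comm, hUe]
      exact hU.measurableSet.inter hD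
    · exact (measurableSet_le hcn.measurable measurable_const).inter
        (measurableSet_le measurable_const hlm)
  have hEb : ∀ j, ∫⁻ z in E j, ENNReal.ofReal (PB A f w z) ≤ ENNReal.ofReal (c0⁻¹ * |C|) := by
    intro j
    have ht : (1 : ℝ) ≤ (j : ℝ) + 1 := by linarith [Nat.cast_nonneg (α := ℝ) j]
    obtain ⟨hI, hb⟩ := hC s ((j : ℝ) + 1) ht
    obtain ⟨-, hrt1, -, -⟩ := hrho _ ht
    have hnn : ∀ z, 0 ≤ chi z * rho ((j : ℝ) + 1) z * ps κ s (η z) * PB A f w z := fun z =>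
      mul_nonneg (mul_nonneg (mul_nonneg (hchi1 z).1 (hrt1 z).1) (ps_pos hκ _ _).le)
        (pb_nonneg A hw f z)
    calc ∫⁻ z in E j, ENNReal.ofReal (PB A f w z)
        ≤ ∫⁻ z in E j, ENNReal.ofReal c0⁻¹ * ENNReal.ofReal
            (chi z * rho ((j : ℝ) + 1) z * ps κ s (η z) * PB A f w z) := by
          refine setLIntegral_mono' (hEm j) fun z hz => ?_
          rw [← ENNReal.ofReal_mul (by positivity)]
          refine ENNReal.ofReal_le_ofReal ?_
          have h1 : chi z = 1 := (hchi1 z).2.2.1 hz.2.1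
          have h2 : rho ((j : ℝ) + 1) z = 1 := (hrt1 z).2.2.1 hz.1.1.1 hz.2.2.2
          rw [h1, h2, one_mul, one_mul, ← mul_assoc]
          have h3 := ps_ge hκ hz.2.2.1
          have h4 : 1 ≤ c0⁻¹ * ps κ s (η z) := by
            rw [← inv_mul_cancel₀ hc0p.ne']
            exact mul_le_mul_of_nonneg_left h3 (inv_nonneg.2 hc0p.le)
          exact le_mul_of_one_le_left (pb_nonneg A hw f z) h4
      _ ≤ ∫⁻ z in Dp n \ I, ENNReal.ofReal c0⁻¹ * ENNReal.ofReal
            (chi z * rho ((j : ℝ) + 1) z * ps κ s (η z) * PB A f w z) :=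
          lintegral_mono_set inter_subset_left
      _ = ENNReal.ofReal c0⁻¹ * ENNReal.ofReal (∫ z in Dp n \ I,
            chi z * rho ((j : ℝ) + 1) z * ps κ s (η z) * PB A f w z) := by
          rw [lintegral_const_mul' _ _ ENNReal.ofReal_ne_top,
            ofReal_integral_eq_lintegral_ofReal hI (Eventually.of_forall hnn)]
      _ ≤ ENNReal.ofReal (c0⁻¹ * |C|) := by
          rw [ENNReal.ofReal_mul (by positivity)]
          exact mul_le_mul_right (ENNReal.ofReal_le_ofReal (hb.trans (le_abs_self _))) _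
  have hsub : (Dp n \ I) ∩ {z | nsq z ≤ 1 / 2 ∧ |η z - s| ≤ 1} ⊆
      (⋃ j, E j) ∪ ({z : V n | 1 / 4 ≤ nsq z ∧ nsq z ≤ 1 / 2} \ I) := by
    rintro z ⟨hz, hz1, hz2⟩
    by_cases h4 : nsq z ≤ 1 / 4
    · left
      obtain ⟨j, hj⟩ := exists_nat_ge (-lu z)
      refine mem_iUnion.2 ⟨j, hz, h4, hz2, by linarith⟩
    · right
      push Not at h4
      exact ⟨⟨h4.le, hz1⟩, hz.2⟩
  calc ∫⁻ z in (Dp n \ I) ∩ {z | nsq z ≤ 1 / 2 ∧ |η z - s| ≤ 1}, ENNReal.ofReal (PB A f w z)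
      ≤ ∫⁻ z in (⋃ j, E j) ∪ ({z : V n | 1 / 4 ≤ nsq z ∧ nsq z ≤ 1 / 2} \ I),
          ENNReal.ofReal (PB A f w z) := lintegral_mono_set hsub
    _ ≤ (∫⁻ z in ⋃ j, E j, ENNReal.ofReal (PB A f w z)) + F := lintegral_union_le _ _ _
    _ ≤ ENNReal.ofReal (c0⁻¹ * |C|) + ENNReal.ofReal F.toReal := by
        refine add_le_add ?_ ?_
        · rw [setLIntegral_iUnion_of_directed _ hmono]
          exact iSup_le hEb
        · rw [ENNReal.ofReal_toReal hfin.ne]
    _ = ENNReal.ofReal (c0⁻¹ * |C| + F.toReal) := by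
        rw [← ENNReal.ofReal_add (by positivity) ENNReal.toReal_nonneg]

end Pool.Agent.H24.VG
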