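import Pool.Agent.H24.VG.CLA

/-!
# VG module PFM: the part of large positive `η` has finite mass
-/

open MeasureTheory Set Filter Topology
open scoped ENNReal NNReal ContDiff ComplexConjugate

namespace Pool.Agent.H24.VG

open Pool.Agent.H95.VG

/-! ## The cutoffs in `η` -/

/-- the smooth step -/
noncomputable def st (s : ℝ) : ℝ := Real.smoothTransition s

/-- its primitive -/
noncomputable def Th (s : ℝ) : ℝ := ∫ x in (0 : ℝ)..s, st x

theorem st_cd : ContDiff ℝ ∞ st := Real.smoothTransition.contDiff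

theorem st_zero {s : ℝ} (h : s ≤ 0) : st s = 0 := Real.smoothTransition.zero_of_nonpos h

theorem st_one {s : ℝ} (h : 1 ≤ s) : st s = 1 := Real.smoothTransition.one_of_one_le h

theorem st_nonneg (s : ℝ) : 0 ≤ st s := Real.smoothTransition.nonneg s

theorem st_le (s : ℝ) : st s ≤ 1 := Real.smoothTransition.le_one s

theorem Th_der (s : ℝ) : HasDerivAt Th (st s) s :=
  intervalIntegral.integral_hasDerivAt_right (st_cd.continuous.intervalIntegrable _ _)
    st_cd.continuous.stronglyMeasurable.stronglyMeasurableAtFilter st_cd.continuous.continuousAt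

theorem Th_cd : ContDiff ℝ ∞ Th := by
  rw [contDiff_infty_iff_deriv]
  refine ⟨fun s => (Th_der s).differentiableAt, ?_⟩
  rw [show deriv Th = st from funext fun s => (Th_der s).deriv]
  exact st_cd

theorem Th_zero {s : ℝ} (h : s ≤ 0) : Th s = 0 := by
  unfold Th
  refine intervalIntegral.integral_zero_ae (Eventually.of_forall fun x hx => ?_)
  rw [uIoc_of_ge h] at hx
  exact st_zero hx.2

theorem Th_one {s : ℝ} (h : 1 ≤ s) : Th s = Th 1 + (s - 1) := by
  unfold Th
  rw [← intervalIntegral.integral_add_adjacent_intervals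
    (st_cd.continuous.intervalIntegrable 0 1) (st_cd.continuous.intervalIntegrable 1 s)]
  congr 1
  have : ∫ x in (1 : ℝ)..s, st x = ∫ _ in (1 : ℝ)..s, (1 : ℝ) := by
    refine intervalIntegral.integral_congr fun x hx => ?_
    rw [uIcc_of_le h] at hx
    exact st_one hx.1
  rw [this]
  simp

/-- a smooth function, constant outside `[0,1]`, has bounded derivative vanishing there -/
theorem der_bd {u : ℝ → ℝ} (hu : ContDiff ℝ ∞ u) {α β : ℝ} (h0 : ∀ s ≤ 0, u s = α)
    (h1 : ∀ s, 1 ≤ s → u s = β) :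
    (∀ s ≤ 0, deriv u s = 0) ∧ (∀ s, 1 ≤ s → deriv u s = 0) ∧ ∃ D : ℝ, ∀ s, |deriv u s| ≤ D := by
  have hc : Continuous (deriv u) := hu.continuous_deriv (by simp)
  have e0 : ∀ s < 0, deriv u s = 0 := by
    intro s hs
    have : u =ᶠ[𝓝 s] fun _ => α := by
      filter_upwards [Iio_mem_nhds hs] with x hx using h0 x (le_of_lt hx)
    rw [this.deriv_eq, deriv_const]
  have e1 : ∀ s, 1 < s → deriv u s = 0 := by
    intro s hs
    have : u =ᶠ[𝓝 s] fun _ => β := by
      filter_upwards [Ioi_mem_nhds hs] with x hx using h1 x (le_of_lt hx)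
    rw [this.deriv_eq, deriv_const]
  have f0 : ∀ s ≤ 0, deriv u s = 0 := by
    have hcl : IsClosed {s | deriv u s = 0} := isClosed_eq hc continuous_const
    have hsub : closure (Iio (0 : ℝ)) ⊆ {s | deriv u s = 0} :=
      hcl.closure_subset_iff.2 fun s hs => e0 s hs
    intro s hs
    rw [closure_Iio] at hsub
    exact hsub hs
  have f1 : ∀ s, 1 ≤ s → deriv u s = 0 := by
    have hcl : IsClosed {s | deriv u s = 0} := isClosed_eq hc continuous_const
    have hsub : closure (Ioi (1 : ℝ)) ⊆ {s | deriv u s = 0} :=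
      hcl.closure_subset_iff.2 fun s hs => e1 s hs
    intro s hs
    rw [closure_Ioi] at hsub
    exact hsub hs
  refine ⟨f0, f1, ?_⟩
  obtain ⟨D, hD⟩ := (isCompact_Icc (a := (0 : ℝ)) (b := 1)).exists_bound_of_continuousOn
    hc.continuousOn
  refine ⟨|D|, fun s => ?_⟩
  rcases le_or_gt s 0 with hs | hs
  · rw [f0 s hs, abs_zero]; exact abs_nonneg _
  · rcases le_or_gt 1 s with hs1 | hs1
    · rw [f1 s hs1, abs_zero]; exact abs_nonneg _
    · exact (hD s ⟨hs.le, hs1.le⟩).trans (le_abs_self _)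

theorem dst_cd : ContDiff ℝ ∞ (deriv st) := (contDiff_infty_iff_deriv.1 st_cd).2

/-- the window cutoff -/
noncomputable def tau (B L s : ℝ) : ℝ := st (s - B) - st (s - (B + L))

/-- its primitive -/
noncomputable def tht (B L s : ℝ) : ℝ := Th (s - B) - Th (s - (B + L))

theorem tht_der (B L : ℝ) : deriv (tht B L) = tau B L := by
  funext s
  have h1 := (Th_der (s - B)).comp_sub_const s B
  have h2 := (Th_der (s - (B + L))).comp_sub_const s (B + L)
  exact (h1.sub h2).deriv

theorem tht_cd (B L : ℝ) : ContDiff ℝ ∞ (tht B L) :=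
  (Th_cd.comp (contDiff_id.sub contDiff_const)).sub (Th_cd.comp (contDiff_id.sub contDiff_const))

theorem tau_cd (B L : ℝ) : ContDiff ℝ ∞ (tau B L) :=
  (st_cd.comp (contDiff_id.sub contDiff_const)).sub (st_cd.comp (contDiff_id.sub contDiff_const))

theorem dtau (B L : ℝ) :
    deriv (tau B L) = fun s => deriv st (s - B) - deriv st (s - (B + L)) := by
  funext s
  have hd : Differentiable ℝ st := st_cd.differentiable (by simp)
  have h1 := (hd (s - B)).hasDerivAt.comp_sub_const s B
  have h2 := (hd (s - (B + L))).hasDerivAt.comp_sub_const s (B + L)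
  exact (h1.sub h2).deriv

theorem ddtau (B L : ℝ) : deriv (deriv (tau B L)) =
    fun s => deriv (deriv st) (s - B) - deriv (deriv st) (s - (B + L)) := by
  rw [dtau]
  funext s
  have hd : Differentiable ℝ (deriv st) := dst_cd.differentiable (by simp)
  have h1 := (hd (s - B)).hasDerivAt.comp_sub_const s B
  have h2 := (hd (s - (B + L))).hasDerivAt.comp_sub_const s (B + L)
  exact (h1.sub h2).deriv

theorem tau_bd {B L : ℝ} (hL : 1 ≤ L) (s : ℝ) : 0 ≤ tau B L s ∧ tau B L s ≤ 1 := by
  unfold tau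
  refine ⟨?_, by linarith [st_le (s - B), st_nonneg (s - (B + L))]⟩
  rcases le_or_gt s (B + L) with h | h
  · rw [st_zero (show s - (B + L) ≤ 0 by linarith), sub_zero]; exact st_nonneg _
  · rw [st_one (show 1 ≤ s - B by linarith)]; linarith [st_le (s - (B + L))]

theorem tau_out {B L : ℝ} (hL : 1 ≤ L) {s : ℝ} (h : s ≤ B ∨ B + L + 1 ≤ s) : tau B L s = 0 := by
  unfold tau
  rcases h with h | h
  · rw [st_zero (by linarith), st_zero (by linarith), sub_zero]
  · rw [st_one (by linarith), st_one (by linarith), sub_self]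

theorem tau_in {B L : ℝ} {s : ℝ} (h : B + 1 ≤ s) (h' : s ≤ B + L) : tau B L s = 1 := by
  unfold tau
  rw [st_one (by linarith), st_zero (by linarith), sub_zero]

theorem tht_lo {B L : ℝ} (hL : 1 ≤ L) {s : ℝ} (h : s ≤ B) : tht B L s = 0 := by
  unfold tht
  rw [Th_zero (by linarith), Th_zero (by linarith), sub_zero]

theorem tht_hi {B L : ℝ} (hL : 1 ≤ L) {s : ℝ} (h : B + L + 1 ≤ s) : tht B L s = L := by
  unfold tht
  rw [Th_one (show 1 ≤ s - B by linarith), Th_one (show 1 ≤ s - (B + L) by linarith)]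
  ring

/-! ## Windows -/

variable {n : ℕ} {X : Type} [TopologicalSpace X] {ι : Type} [Fintype ι]

/-- finitely many windows -/
theorem win_many {A : Atl n X ι} {w : ι → V n → ℝ} {f : V n → X} {I : Set (V n)}
    {η : V n → ℝ} {CW : ℝ}
    (hW : ∀ s : ℝ, ∫⁻ z in (Dp n \ I) ∩ {z | nsq z ≤ 1 / 2 ∧ |η z - s| ≤ 1},
      ENNReal.ofReal (PB A f w z) ≤ ENNReal.ofReal CW) (a : ℝ) (N : ℕ) :
    ∫⁻ z in (Dp n \ I) ∩ {z | nsq z ≤ 1 / 2 ∧ a ≤ η z ∧ η z ≤ a + N},
      ENNReal.ofReal (PB A f w z) < ⊤ := by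
  induction N with
  | zero =>
    refine (lintegral_mono_set ?_).trans_lt ((hW a).trans_lt ENNReal.ofReal_lt_top)
    rintro z ⟨hz, h1, h2, h3⟩
    refine ⟨hz, h1, ?_⟩
    simp only [Nat.cast_zero, add_zero] at h3
    rw [abs_le]; constructor <;> linarith
  | succ N ih =>
    have hsub : (Dp n \ I) ∩ {z | nsq z ≤ 1 / 2 ∧ a ≤ η z ∧ η z ≤ a + ((N + 1 : ℕ) : ℝ)} ⊆
        ((Dp n \ I) ∩ {z | nsq z ≤ 1 / 2 ∧ a ≤ η z ∧ η z ≤ a + N}) ∪
        ((Dp n \ I) ∩ {z | nsq z ≤ 1 / 2 ∧ |η z - (a + N)| ≤ 1}) := by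
      rintro z ⟨hz, h1, h2, h3⟩
      rcases le_or_gt (η z) (a + N) with h4 | h4
      · exact Or.inl ⟨hz, h1, h2, h4⟩
      · refine Or.inr ⟨hz, h1, ?_⟩
        push_cast at h3
        rw [abs_le]; constructor <;> linarith
    refine (lintegral_mono_set hsub).trans_lt ((lintegral_union_le _ _ _).trans_lt ?_)
    exact ENNReal.add_lt_top.2 ⟨ih, (hW _).trans_lt ENNReal.ofReal_lt_top⟩

variable [T2Space X]

/-- integrability of window functions, with a bound -/
theorem int_win (hs : T_SMO) (ho : T_OAO) (hcut : T_CUT) {A : Atl n X ι} {w : ι → V n → ℝ}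
    {f : V n → X} {I : Set (V n)} (hS : Sing A f I) {η : V n → ℝ} (hηc : ContinuousOn η (Dp n \ I))
    {p : ι → V n → ℝ} (hp : ∀ a, Continuous (p a))
    (hsup : ∀ a y, p a y ≠ 0 → y ∈ Metric.closedBall (0 : V n) (3 / 2)) {C : ℝ} (hC0 : 0 ≤ C)
    (hC : ∀ z ∈ Dp n \ I, |PB A f p z| ≤ C * PB A f w z) {u : ℝ → ℝ} (hu : Continuous u)
    {B : ℝ} (hB : ∀ s, |u s| ≤ B) {S : Set ℝ} (hSc : IsClosed S) (huS : ∀ s, u s ≠ 0 → s ∈ S)
    (hfin : ∫⁻ z in (Dp n \ I) ∩ {z | nsq z ≤ 1 / 2 ∧ η z ∈ S}, ENNReal.ofReal (PB A f w z) < ⊤) :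
    IntegrableOn (fun z => chi z * u (η z) * PB A f p z) (Dp n \ I) ∧
    ∫ z in Dp n \ I, |chi z * u (η z) * PB A f p z| ≤ B * C *
      (∫⁻ z in (Dp n \ I) ∩ {z | nsq z ≤ 1 / 2 ∧ η z ∈ S}, ENNReal.ofReal (PB A f w z)).toReal := by
  have hD := hS.opn.measurableSet
  obtain ⟨hchi, -, hchi1, -⟩ := hcut n
  have hB0 : 0 ≤ B := (abs_nonneg _).trans (hB 0)
  have hcn : Continuous (nsq (n := n)) := by unfold nsq; fun_prop
  set W : Set (V n) := (Dp n \ I) ∩ {z | nsq z ≤ 1 / 2 ∧ η z ∈ S} with hW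
  have hWm : MeasurableSet W := by
    obtain ⟨U, hU, hUe⟩ := continuousOn_iff_isClosed.1 hηc S hSc
    have : W = (η ⁻¹' S ∩ (Dp n \ I)) ∩ {z | nsq z ≤ 1 / 2} := by
      ext z; simp only [hW, mem_inter_iff, mem_ofPred_eq, mem_preimage]; tauto
    rw [this, hUe]
    exact (hU.measurableSet.inter hD).inter (measurableSet_le hcn.measurable measurable_const)
  have hcont : ContinuousOn (fun z => chi z * u (η z) * PB A f p z) (Dp n \ I) :=
    ((hchi.continuous.continuousOn).mul (hu.comp_continuousOn hηc)).mul (pb_cont hs ho A hS hp hsup)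
  have h1 : ∫⁻ z in Dp n \ I, ‖chi z * u (η z) * PB A f p z‖ₑ ≤
      ENNReal.ofReal (B * C) * ∫⁻ z in W, ENNReal.ofReal (PB A f w z) := by
    calc ∫⁻ z in Dp n \ I, ‖chi z * u (η z) * PB A f p z‖ₑ
        ≤ ∫⁻ z in Dp n \ I, W.indicator
            (fun z => ENNReal.ofReal (B * C) * ENNReal.ofReal (PB A f w z)) z := by
          refine setLIntegral_mono' hD fun z hz => ?_
          by_cases hzW : z ∈ W
          · rw [indicator_of_mem hzW, ← ENNReal.ofReal_mul (by positivity),
              Real.enorm_eq_ofReal_abs]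
            refine ENNReal.ofReal_le_ofReal ?_
            rw [abs_mul, abs_mul, mul_assoc B]
            refine mul_le_mul ?_ (hC z hz) (abs_nonneg _) hB0
            rw [← one_mul B]
            refine mul_le_mul ?_ (hB _) (abs_nonneg _) zero_le_one
            rw [abs_of_nonneg (hchi1 z).1]
            exact (hchi1 z).2.1
          · have : chi z * u (η z) = 0 := by
              by_contra hne
              refine hzW ⟨hz, ?_, huS _ (right_ne_zero_of_mul hne)⟩
              by_contra hcon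
              push Not at hcon
              exact (left_ne_zero_of_mul hne) ((hchi1 z).2.2.2 hcon.le)
            rw [this, zero_mul, enorm_zero]; exact zero_le
      _ = ENNReal.ofReal (B * C) * ∫⁻ z in W, ENNReal.ofReal (PB A f w z) := by
          rw [lintegral_indicator hWm, Measure.restrict_restrict hWm,
            inter_eq_self_of_subset_left (show W ⊆ Dp n \ I from inter_subset_left),
            lintegral_const_mul' _ _ ENNReal.ofReal_ne_top]
  have hint : IntegrableOn (fun z => chi z * u (η z) * PB A f p z) (Dp n \ I) :=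
    ⟨hcont.aestronglyMeasurable hD, h1.trans_lt (ENNReal.mul_lt_top ENNReal.ofReal_lt_top hfin)⟩
  refine ⟨hint, ?_⟩
  have h2 : ∫ z in Dp n \ I, |chi z * u (η z) * PB A f p z| =
      (∫⁻ z in Dp n \ I, ‖chi z * u (η z) * PB A f p z‖ₑ).toReal :=
    integral_norm_eq_lintegral_enorm hint.aestronglyMeasurable
  rw [h2]
  have h3 := ENNReal.toReal_mono (ENNReal.mul_lt_top ENNReal.ofReal_lt_top hfin).ne h1
  rwa [ENNReal.toReal_mul, ENNReal.toReal_ofReal (by positivity)] at h3

omit [T2Space X] [Fintype ι] [TopologicalSpace X] in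
theorem lev_evconst {g : V n → ℝ} {z v : V n} {c : ℝ} (hg : g =ᶠ[𝓝 z] fun _ => c) :
    lev g z v = 0 := by
  have h1 : ∀ u : V n, fderiv ℝ (fun x => fderiv ℝ g x u) z = 0 := by
    intro u
    have h2 : (fun x => fderiv ℝ g x u) =ᶠ[𝓝 z] fun _ => (0 : ℝ) := by
      filter_upwards [hg.eventuallyEq_nhds] with x hx
      rw [hx.fderiv_eq, fderiv_const_apply]
      rfl
    rw [h2.fderiv_eq, fderiv_const_apply]
  unfold lev
  rw [h1, h1]
  simp

omit [T2Space X] [Fintype ι] [TopologicalSpace X] in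
theorem int_sum4 {μ : Measure (V n)} {F1 F2 F3 F4 G : V n → ℝ} (h1 : Integrable F1 μ)
    (h2 : Integrable F2 μ) (h3 : Integrable F3 μ) (h4 : Integrable F4 μ) (h0 : 0 ≤ᵐ[μ] G)
    (hle : ∀ᵐ z ∂μ, G z ≤ F1 z + F2 z + F3 z + F4 z) :
    ∫ z, G z ∂μ ≤ (∫ z, F1 z ∂μ) + (∫ z, F2 z ∂μ) + (∫ z, F3 z ∂μ) + ∫ z, F4 z ∂μ := by
  have e : ∫ z, (F1 + F2 + F3 + F4) z ∂μ =
      (∫ z, F1 z ∂μ) + (∫ z, F2 z ∂μ) + (∫ z, F3 z ∂μ) + ∫ z, F4 z ∂μ := by
    rw [integral_add' ((h1.add h2).add h3) h4, integral_add' (h1.add h2) h3, integral_add' h1 h2]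
  rw [← e]
  exact integral_mono_of_nonneg h0 (((h1.add h2).add h3).add h4) hle

theorem pfm (hs : T_SMO) (ho : T_OAO) (hrnc : T_RNC) (heqd : T_EQD) (hkbd : T_KBD)
    (hnha : T_NHA) (hinn : T_INN) (hcut : T_CUT) : T_PFM := by
  intro n X _ _ _ _ ι _ A w f I h η hw hS hh hη hk hWin
  obtain ⟨CW, hCW⟩ := id hWin
  have hn : 1 ≤ n := one_le_two.trans hS.two
  have hD := hS.opn.measurableSet
  obtain ⟨hkc, hks, hkk, CK, hCK⟩ := hkbd n X ι A w h hw hh
  have hk1 : ∀ a, Continuous (k1 w h a) := fun a => (hkc a).1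
  have hk2 : ∀ a, Continuous (k2 w h a) := fun a => (hkc a).2
  have hs1 : ∀ a y, k1 w h a y ≠ 0 → y ∈ Metric.closedBall (0 : V n) (3 / 2) :=
    fun a y hy => hks a y (Or.inl hy)
  have hs2 : ∀ a y, k2 w h a y ≠ 0 → y ∈ Metric.closedBall (0 : V n) (3 / 2) :=
    fun a y hy => hks a y (Or.inr hy)
  have hwc : ∀ a, Continuous (w a) := fun a => (hw.smooth a).continuous
  have hW := (averaging hrnc heqd A hn hw hk1 hs1 one_pos).1
  set a0 : ℝ := -(kap w h / ∑ a, ∫ y, w a y) with ha0
  have ha0p : 0 < a0 := by rw [ha0, neg_pos]; exact div_neg_of_neg_of_pos hk hW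
  obtain ⟨-, ε, hε, T, hT, hav⟩ := averaging hrnc heqd A hn hw hk1 hs1
    (show (0 : ℝ) < a0 / 2 by positivity)
  have hN : ∀ c : T, ∃ C : ℝ, 0 ≤ C ∧ ∀ (τ : ℝ → ℝ) (B t : ℝ), 1 ≤ t → ContDiff ℝ 2 τ →
      (∀ s, |τ s| ≤ B) → (∃ B' : ℝ, ∀ s, |deriv τ s| ≤ B' ∧ |deriv (deriv τ) s| ≤ B') →
      |∫ z in Dp n \ I, chi z * rho t z * τ (η z) *
          PB A f (sgl c.1.1 (fun y => ∑ k, lev c.1.2 y (ek k))) z|
        ≤ C * B + C * ∫ z in Dp n \ I, chi z * rho t z *
          (|deriv τ (η z)| + |deriv (deriv τ) (η z)|) * PB A f w z := fun c =>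
    hnha n X ι A w f I h η hw hS hh hη c.1.1 c.1.2 (hT c.1 c.2).1 (hT c.1 c.2).2
  choose CN hCN0 hCN using hN
  set CS : ℝ := ∑ c : T, CN c with hCS
  have hCS0 : 0 ≤ CS := Finset.sum_nonneg fun c _ => hCN0 c
  have hCNS : ∀ c, CN c ≤ CS := fun c =>
    Finset.single_le_sum (f := CN) (fun c _ => hCN0 c) (Finset.mem_univ c)
  obtain ⟨Ip, Im, hIp, hIm, -, hInn⟩ := hinn n X ι A w f I h η hw hS hh hη hWin
  obtain ⟨hKc, hKs⟩ := shell_compact (n := n) (a := 1 / 4) (b := 1 / 2) (by norm_num)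
    (by norm_num)
  obtain ⟨B0, hB0⟩ := hS.s3 h η hh hη _ hKs hKc
  obtain ⟨hchi, -, hchi1, hrho, -⟩ := hcut n
  obtain ⟨d10, d11, D1, hD1⟩ := der_bd st_cd (fun s hs => st_zero hs) (fun s hs => st_one hs)
  obtain ⟨d20, d21, D2, hD2⟩ := der_bd dst_cd d10 d11
  have hD10 : 0 ≤ D1 := (abs_nonneg _).trans (hD1 0)
  have hD20 : 0 ≤ D2 := (abs_nonneg _).trans (hD2 0)
  -- windows of the step
  have hwin : ∀ s : ℝ, ∫⁻ z in (Dp n \ I) ∩ {z | nsq z ≤ 1 / 2 ∧ η z ∈ {r : ℝ | |r - s| ≤ 1}},
      ENNReal.ofReal (PB A f w z) ≤ ENNReal.ofReal CW := hCW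
  have hcw : ∀ s : ℝ, IsClosed {r : ℝ | |r - s| ≤ 1} := fun s =>
    isClosed_le (by fun_prop) continuous_const
  -- derivative integrals are bounded
  have hder : ∀ {p : ι → V n → ℝ} {C : ℝ}, (∀ a, Continuous (p a)) →
      (∀ a y, p a y ≠ 0 → y ∈ Metric.closedBall (0 : V n) (3 / 2)) → 0 ≤ C →
      (∀ z ∈ Dp n \ I, |PB A f p z| ≤ C * PB A f w z) → ∀ {v : ℝ → ℝ} {D : ℝ}, Continuous v →
      (∀ s ≤ 0, v s = 0) → (∀ s, 1 ≤ s → v s = 0) → (∀ s, |v s| ≤ D) → ∀ s : ℝ,
      IntegrableOn (fun z => chi z * v (η z - s) * PB A f p z) (Dp n \ I) ∧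
      ∫ z in Dp n \ I, |chi z * v (η z - s) * PB A f p z| ≤ D * C * |CW| := by
    intro p C hp hps hC0 hpC v D hv hv0 hv1 hvD s
    have h1 := int_win hs ho hcut hS hη.cont hp hps hC0 hpC (u := fun r => v (r - s))
      (hv.comp (continuous_id.sub continuous_const)) (fun r => hvD _) (hcw s) (fun r hr => ?_)
      ((hwin s).trans_lt ENNReal.ofReal_lt_top)
    · refine ⟨h1.1, h1.2.trans ?_⟩
      have hD0 : 0 ≤ D := (abs_nonneg _).trans (hvD 0)
      refine mul_le_mul_of_nonneg_left ?_ (by positivity)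
      have h2 := ENNReal.toReal_mono ENNReal.ofReal_ne_top (hwin s)
      refine h2.trans ?_
      rw [ENNReal.toReal_ofReal']
      exact max_le (le_abs_self _) (abs_nonneg _)
    · change |r - s| ≤ 1
      by_contra hcon
      push Not at hcon
      rcases lt_abs.1 hcon with h2 | h2
      · exact hr (hv1 _ h2.le)
      · exact hr (hv0 _ (by linarith))
  have hdstc : Continuous (deriv st) := dst_cd.continuous
  have hddstc : Continuous (deriv (deriv st)) := dst_cd.continuous_deriv (by simp)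
  set M : ℕ → ℝ := fun L => ∫ z in Dp n \ I, chi z * tau B0 L (η z) * PB A f w z with hM
  -- integrability of the window itself
  have htau : ∀ L : ℕ, 1 ≤ L → ∀ {p : ι → V n → ℝ} {C : ℝ}, (∀ a, Continuous (p a)) →
      (∀ a y, p a y ≠ 0 → y ∈ Metric.closedBall (0 : V n) (3 / 2)) → 0 ≤ C →
      (∀ z ∈ Dp n \ I, |PB A f p z| ≤ C * PB A f w z) →
      IntegrableOn (fun z => chi z * tau B0 L (η z) * PB A f p z) (Dp n \ I) := by
    intro L hL p C hp hps hC0 hpC
    have hL' : (1 : ℝ) ≤ L := by exact_mod_cast hL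
    refine (int_win hs ho hcut hS hη.cont hp hps hC0 hpC (u := tau B0 L)
      (tau_cd _ _).continuous (B := 1) (fun r => ?_) (S := Icc B0 (B0 + ((L + 1 : ℕ) : ℝ)))
      isClosed_Icc (fun r hr => ?_) ?_).1
    · rw [abs_of_nonneg (tau_bd hL' r).1]; exact (tau_bd hL' r).2
    · push_cast
      constructor
      · by_contra hcon
        push Not at hcon
        exact hr (tau_out hL' (Or.inl hcon.le))
      · by_contra hcon
        push Not at hcon
        exact hr (tau_out hL' (Or.inr (by linarith)))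
    · exact win_many hCW B0 (L + 1)
  have hself : ∀ z ∈ Dp n \ I, |PB A f w z| ≤ 1 * PB A f w z := fun z _ => self_bd A hw f z
  have hK1 : ∀ z ∈ Dp n \ I, |PB A f (k1 w h) z| ≤ |CK| * PB A f w z := fun z hz =>
    ((hCK f I hS z hz).1).trans (mul_le_mul_of_nonneg_right (le_abs_self _) (pb_nonneg A hw f z))
  have hK2 : ∀ z ∈ Dp n \ I, |PB A f (k2 w h) z| ≤ |CK| * PB A f w z := fun z hz =>
    ((hCK f I hS z hz).2).trans (mul_le_mul_of_nonneg_right (le_abs_self _) (pb_nonneg A hw f z))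
  set C' : ℝ := CS + CS * ((2 * D1 + 2 * D2) * |CW|) with hC'
  have hC'0 : 0 ≤ C' := by positivity
  set CM : ℝ := max (C' / ε) (max 0 (4 * (D1 * |CK| * |CW|) / a0)) with hCM
  have hbound : ∀ L : ℕ, 1 ≤ L → M L ≤ CM := by
    intro L hL
    have hL' : (1 : ℝ) ≤ L := by exact_mod_cast hL
    by_contra hcon
    push Not at hcon
    have hm1 : C' / ε < M L := (le_max_left _ _).trans_lt hcon
    have hm0 : 0 < M L := ((le_max_left _ _).trans (le_max_right _ _)).trans_lt hcon
    have hm2 : 4 * (D1 * |CK| * |CW|) / a0 < M L :=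
      ((le_max_right _ _).trans (le_max_right _ _)).trans_lt hcon
    have hprod : ∀ z : V n, 0 ≤ chi z * tau B0 L (η z) := fun z =>
      mul_nonneg (hchi1 z).1 (tau_bd hL' _).1
    -- the near harmonicity
    have hcond : ∀ c ∈ T, |∫ z in Dp n \ I, chi z * tau B0 L (η z) *
        PB A f (sgl c.1 (fun y => ∑ k, lev c.2 y (ek k))) z| ≤
        ε * ∫ z in Dp n \ I, chi z * tau B0 L (η z) * PB A f w z := by
      intro c hc
      set P : ι → V n → ℝ := sgl c.1 (fun y => ∑ k, lev c.2 y (ek k)) with hP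
      have hcs := hT c hc
      have hPc : ∀ a, Continuous (P a) := by
        intro a
        rw [hP]
        unfold sgl
        by_cases ha : a = c.1
        · simp only [ha, if_true]
          exact continuous_finsetSum _ fun k _ => lev_cont hcs.1 _
        · simp only [ha, if_false]; exact continuous_const
      have hPs : ∀ a y, P a y ≠ 0 → y ∈ Metric.closedBall (0 : V n) (3 / 2) := by
        intro a y hy
        rw [hP] at hy
        unfold sgl at hy
        by_cases ha : a = c.1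
        · simp only [ha, if_true] at hy
          by_contra hne
          refine hy (Finset.sum_eq_zero fun k _ => lev_van fun h => hne ?_)
          have : tsupport c.2 ⊆ Metric.closedBall (0 : V n) (3 / 2) :=
            closure_minimal (fun y hy => hcs.2 y hy) Metric.isClosed_closedBall
          exact this h
        · simp only [ha, if_false] at hy; exact absurd rfl hy
      obtain ⟨-, ⟨CR, hCR⟩, -, -, hPB⟩ := hrnc n X ι A w P hw hPc hPs
      have hPB' : ∀ z ∈ Dp n \ I, |PB A f P z| ≤ |CR| * PB A f w z := by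
        intro z hz
        rw [hPB f I hS z hz, abs_mul, abs_of_nonneg (pb_nonneg A hw f z)]
        exact mul_le_mul_of_nonneg_right ((hCR _).trans (le_abs_self _)) (pb_nonneg A hw f z)
      have hPi := htau L hL hPc hPs (abs_nonneg _) hPB'
      -- for each `j`
      have hj : ∀ j : ℕ, |∫ z in Dp n \ I, chi z * rho ((j : ℝ) + 1) z * tau B0 L (η z) *
          PB A f P z| ≤ C' := by
        intro j
        have ht : (1 : ℝ) ≤ (j : ℝ) + 1 := by linarith [Nat.cast_nonneg (α := ℝ) j]
        obtain ⟨hrt, hrt1, -, -⟩ := hrho _ ht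
        have hd1 := hder hwc hw.supp zero_le_one hself hdstc d10 d11 hD1
        have hd2 := hder hwc hw.supp zero_le_one hself hddstc d20 d21 hD2
        have h1 := hCN ⟨c, hc⟩ (tau B0 L) 1 ((j : ℝ) + 1) ht ((tau_cd _ _).of_le ENat.LEInfty.out)
          (fun s => by rw [abs_of_nonneg (tau_bd hL' s).1]; exact (tau_bd hL' s).2)
          ⟨2 * D1 + 2 * D2, fun s => ⟨?_, ?_⟩⟩
        · refine h1.trans ?_
          have h2 : ∫ z in Dp n \ I, chi z * rho ((j : ℝ) + 1) z *
              (|deriv (tau B0 L) (η z)| + |deriv (deriv (tau B0 L)) (η z)|) * PB A f w z ≤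
              (2 * D1 + 2 * D2) * |CW| := by
            have h5 := int_sum4 (hd1 B0).1.abs (hd1 (B0 + L)).1.abs (hd2 B0).1.abs
              (hd2 (B0 + L)).1.abs (G := fun z => chi z * rho ((j : ℝ) + 1) z *
              (|deriv (tau B0 L) (η z)| + |deriv (deriv (tau B0 L)) (η z)|) * PB A f w z)
              (Eventually.of_forall fun z => mul_nonneg (mul_nonneg (mul_nonneg (hchi1 z).1
                (hrt1 z).1) (by positivity)) (pb_nonneg A hw f z))
              (Eventually.of_forall fun z => ?_)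
            · refine h5.trans ?_
              linarith [(hd1 B0).2, (hd1 (B0 + L)).2, (hd2 B0).2, (hd2 (B0 + L)).2]
            · simp only [ddtau]
              simp only [dtau, abs_mul, abs_of_nonneg (hchi1 z).1,
                abs_of_nonneg (pb_nonneg A hw f z)]
              have e1 := abs_sub (deriv st (η z - B0)) (deriv st (η z - (B0 + L)))
              have e2 := abs_sub (deriv (deriv st) (η z - B0)) (deriv (deriv st) (η z - (B0 + L)))
              have e3 : chi z * rho ((j : ℝ) + 1) z ≤ chi z :=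
                mul_le_of_le_one_right (hchi1 z).1 (hrt1 z).2.1
              calc chi z * rho ((j : ℝ) + 1) z * (|deriv st (η z - B0) -
                    deriv st (η z - (B0 + L))| + |deriv (deriv st) (η z - B0) -
                    deriv (deriv st) (η z - (B0 + L))|) * PB A f w z
                  ≤ chi z * ((|deriv st (η z - B0)| + |deriv st (η z - (B0 + L))|) +
                    (|deriv (deriv st) (η z - B0)| + |deriv (deriv st) (η z - (B0 + L))|)) *
                    PB A f w z := by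
                    refine mul_le_mul_of_nonneg_right ?_ (pb_nonneg A hw f z)
                    exact mul_le_mul e3 (add_le_add e1 e2) (by positivity) (hchi1 z).1
                _ = _ := by ring
          have h3 := hCN0 ⟨c, hc⟩
          have h4 := hCNS ⟨c, hc⟩
          rw [mul_one, hC']
          refine add_le_add h4 ?_
          exact (mul_le_mul_of_nonneg_left h2 h3).trans
            (mul_le_mul_of_nonneg_right h4 (by positivity))
        · rw [dtau]
          refine (abs_sub _ _).trans ?_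
          linarith [hD1 (s - B0), hD1 (s - (B0 + L))]
        · rw [ddtau]
          refine (abs_sub _ _).trans ?_
          linarith [hD2 (s - B0), hD2 (s - (B0 + L))]
      have hlim : Tendsto (fun j : ℕ => ∫ z in Dp n \ I, chi z * rho ((j : ℝ) + 1) z *
          tau B0 L (η z) * PB A f P z) atTop
          (𝓝 (∫ z in Dp n \ I, chi z * tau B0 L (η z) * PB A f P z)) := by
        refine tendsto_integral_of_dominated_convergence
          (fun z => |chi z * tau B0 L (η z) * PB A f P z|) (fun j => ?_) hPi.abs (fun j => ?_) ?_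
        · have ht : (1 : ℝ) ≤ (j : ℝ) + 1 := by linarith [Nat.cast_nonneg (α := ℝ) j]
          obtain ⟨hrt, -, -, -⟩ := hrho _ ht
          refine ContinuousOn.aestronglyMeasurable ?_ hD
          exact (((hchi.continuous.mul hrt.continuous).continuousOn).mul
            ((tau_cd B0 L).continuous.comp_continuousOn hη.cont)).mul (pb_cont hs ho A hS hPc hPs)
        · have ht : (1 : ℝ) ≤ (j : ℝ) + 1 := by linarith [Nat.cast_nonneg (α := ℝ) j]
          obtain ⟨-, hrt1, -, -⟩ := hrho _ ht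
          refine Eventually.of_forall fun z => ?_
          rw [Real.norm_eq_abs]
          simp only [abs_mul, abs_of_nonneg (hchi1 z).1, abs_of_nonneg (hrt1 z).1]
          refine mul_le_mul_of_nonneg_right (mul_le_mul_of_nonneg_right ?_ (abs_nonneg _))
            (abs_nonneg _)
          exact mul_le_of_le_one_right (hchi1 z).1 (hrt1 z).2.1
        · filter_upwards [ae_restrict_mem hD] with z hz
          refine tendsto_const_nhds.congr' ?_
          obtain ⟨j0, hj0⟩ := exists_nat_ge (-lu z)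
          filter_upwards [eventually_ge_atTop j0] with j hj
          have ht : (1 : ℝ) ≤ (j : ℝ) + 1 := by linarith [Nat.cast_nonneg (α := ℝ) j]
          obtain ⟨-, hrt1, -, -⟩ := hrho _ ht
          have hjc : (j0 : ℝ) ≤ j := by exact_mod_cast hj
          rw [(hrt1 z).2.2.1 hz.1.1 (by linarith), mul_one]
      have hle : |∫ z in Dp n \ I, chi z * tau B0 L (η z) * PB A f P z| ≤ C' :=
        le_of_tendsto' hlim.abs hj
      refine hle.trans ?_
      rw [div_lt_iff₀ hε] at hm1
      have : M L * ε = ε * ∫ z in Dp n \ I, chi z * tau B0 L (η z) * PB A f w z := mul_comm _ _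
      linarith
    have hmain := hav f I hS (fun z => chi z * tau B0 L (η z)) (fun z _ => hprod z)
      (htau L hL hwc hw.supp zero_le_one hself) hm0 hcond
    rw [hkk] at hmain
    have hJ1 : ∫ z in Dp n \ I, chi z * tau B0 L (η z) * PB A f (k1 w h) z ≤
        -(a0 / 2 * M L) := by
      have h1 := (abs_le.1 hmain).2
      have h2 : kap w h / (∑ a, ∫ y, w a y) = -a0 := by rw [ha0, neg_neg]
      rw [h2] at h1
      simp only [hM]
      linarith
    -- the identity
    have hd1 := hder hk2 hs2 (abs_nonneg _) hK2 hdstc d10 d11 hD1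
    obtain ⟨-, hval⟩ := hInn (tht B0 L) 0 L (|B0| + L + 1) (tht_cd _ _)
      (fun s hs => tht_lo hL' (by linarith [neg_abs_le B0]))
      (fun s hs => tht_hi hL' (by linarith [le_abs_self B0]))
    unfold Inn at hval
    have hzero : ∫ z in Dp n \ I, tht B0 L (η z) * LL A w f chi z = 0 := by
      have hcn : Continuous (nsq (n := n)) := by unfold nsq; fun_prop
      have h0 : ∀ z ∈ Dp n \ I, tht B0 L (η z) * LL A w f chi z = 0 := by
        intro z hz
        rcases lt_or_ge (nsq z) (1 / 4) with h1 | h1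
        · have he : chi =ᶠ[𝓝 z] fun _ => (1 : ℝ) := by
            filter_upwards [hcn.continuousAt.eventually_lt_const h1] with y hy
            exact (hchi1 y).2.2.1 hy.le
          have : LL A w f chi z = 0 := by
            unfold LL
            refine Finset.sum_eq_zero fun a _ => ?_
            rw [Finset.sum_eq_zero fun k _ => lev_evconst he, mul_zero]
          rw [this, mul_zero]
        · rcases lt_or_ge (1 / 2) (nsq z) with h2 | h2
          · have he : chi =ᶠ[𝓝 z] fun _ => (0 : ℝ) := by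
              filter_upwards [hcn.continuousAt.eventually_const_lt h2] with y hy
              exact (hchi1 y).2.2.2 hy.le
            have : LL A w f chi z = 0 := by
              unfold LL
              refine Finset.sum_eq_zero fun a _ => ?_
              rw [Finset.sum_eq_zero fun k _ => lev_evconst he, mul_zero]
            rw [this, mul_zero]
          · rw [tht_lo hL' ((le_abs_self _).trans (hB0 z ⟨⟨h1, h2⟩, hz.2⟩)), zero_mul]
      rw [setIntegral_congr_fun hD h0]
      simp
    rw [hzero, sub_zero, tht_der, zero_mul, add_zero] at hval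
    have hde : ∀ z, chi z * deriv (tau B0 L) (η z) * PB A f (k2 w h) z =
        chi z * deriv st (η z - B0) * PB A f (k2 w h) z -
        chi z * deriv st (η z - (B0 + L)) * PB A f (k2 w h) z := by
      intro z
      rw [dtau]
      ring
    have hi2 : IntegrableOn (fun z => chi z * deriv (tau B0 L) (η z) * PB A f (k2 w h) z)
        (Dp n \ I) := by
      simp only [hde]
      exact (hd1 B0).1.sub (hd1 (B0 + L)).1
    have hJ2 : ∫ z in Dp n \ I, chi z * deriv (tau B0 L) (η z) * PB A f (k2 w h) z ≤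
        2 * (D1 * |CK| * |CW|) := by
      simp only [hde]
      rw [integral_sub (hd1 B0).1 (hd1 (B0 + L)).1]
      have e1 := (abs_integral_le_integral_abs (μ := volume.restrict (Dp n \ I))
        (f := fun z => chi z * deriv st (η z - B0) * PB A f (k2 w h) z)).trans (hd1 B0).2
      have e2 := (abs_integral_le_integral_abs (μ := volume.restrict (Dp n \ I))
        (f := fun z => chi z * deriv st (η z - (B0 + L)) * PB A f (k2 w h) z)).trans
        (hd1 (B0 + L)).2
      linarith [(abs_le.1 e1).2, (abs_le.1 e2).1]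
    have hsplit : ∫ z in Dp n \ I, chi z * (tau B0 L (η z) * PB A f (k1 w h) z
        + deriv (tau B0 L) (η z) * PB A f (k2 w h) z) =
        (∫ z in Dp n \ I, chi z * tau B0 L (η z) * PB A f (k1 w h) z) +
        ∫ z in Dp n \ I, chi z * deriv (tau B0 L) (η z) * PB A f (k2 w h) z := by
      rw [← integral_add (htau L hL hk1 hs1 (abs_nonneg _) hK1) hi2]
      refine integral_congr_ae (Eventually.of_forall fun z => ?_)
      simp only
      ring
    rw [hsplit] at hval
    have hLI : 0 ≤ (L : ℝ) * Ip := by positivity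
    rw [div_lt_iff₀ ha0p] at hm2
    nlinarith
  refine ⟨B0 + 1, ?_⟩
  set E : ℕ → Set (V n) := fun j => (Dp n \ I) ∩
    {z | nsq z ≤ 1 / 4 ∧ B0 + 1 ≤ η z ∧ η z ≤ B0 + ((j + 1 : ℕ) : ℝ)} with hE
  have hmono : Directed (· ⊆ ·) E := by
    refine Monotone.directed_le fun i j hij z hz => ⟨hz.1, hz.2.1, hz.2.2.1, ?_⟩
    have h1 : ((i + 1 : ℕ) : ℝ) ≤ ((j + 1 : ℕ) : ℝ) := by exact_mod_cast Nat.succ_le_succ hij
    linarith [hz.2.2.2]
  have hEm : ∀ j, MeasurableSet (E j) := by
    intro j
    have hcn : Continuous (nsq (n := n)) := by unfold nsq; fun_prop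
    have h1 : E j = (η ⁻¹' (Icc (B0 + 1) (B0 + ((j + 1 : ℕ) : ℝ))) ∩ (Dp n \ I)) ∩
        {z | nsq z ≤ 1 / 4} := by
      ext z; simp only [hE, mem_inter_iff, mem_ofPred_eq, mem_preimage, mem_Icc]; tauto
    obtain ⟨U, hU, hUe⟩ := continuousOn_iff_isClosed.1 hη.cont
      (Icc (B0 + 1) (B0 + ((j + 1 : ℕ) : ℝ))) isClosed_Icc
    rw [h1, hUe]
    exact (hU.measurableSet.inter hD).inter (measurableSet_le hcn.measurable measurable_const)
  have hEb : ∀ j, ∫⁻ z in E j, ENNReal.ofReal (PB A f w z) ≤ ENNReal.ofReal CM := by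
    intro j
    have hL : 1 ≤ j + 1 := Nat.le_add_left _ _
    have hL' : (1 : ℝ) ≤ ((j + 1 : ℕ) : ℝ) := by exact_mod_cast hL
    have hI := htau (j + 1) hL hwc hw.supp zero_le_one hself
    have hnn : ∀ z, 0 ≤ chi z * tau B0 ((j + 1 : ℕ) : ℝ) (η z) * PB A f w z := fun z =>
      mul_nonneg (mul_nonneg (hchi1 z).1 (tau_bd hL' _).1) (pb_nonneg A hw f z)
    calc ∫⁻ z in E j, ENNReal.ofReal (PB A f w z)
        ≤ ∫⁻ z in E j, ENNReal.ofReal (chi z * tau B0 ((j + 1 : ℕ) : ℝ) (η z) * PB A f w z) := by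
          refine setLIntegral_mono' (hEm j) fun z hz => ?_
          rw [(hchi1 z).2.2.1 hz.2.1, tau_in hz.2.2.1 hz.2.2.2, one_mul, one_mul]
      _ ≤ ∫⁻ z in Dp n \ I, ENNReal.ofReal
            (chi z * tau B0 ((j + 1 : ℕ) : ℝ) (η z) * PB A f w z) :=
          lintegral_mono_set inter_subset_left
      _ = ENNReal.ofReal (M (j + 1)) := by
          rw [hM, ofReal_integral_eq_lintegral_ofReal hI (Eventually.of_forall hnn)]
      _ ≤ ENNReal.ofReal CM := ENNReal.ofReal_le_ofReal (hbound (j + 1) hL)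
  have hsub : (Dp n \ I) ∩ {z | nsq z ≤ 1 / 2 ∧ B0 + 1 ≤ η z} ⊆ ⋃ j, E j := by
    rintro z ⟨hz, hz1, hz2⟩
    have h4 : nsq z ≤ 1 / 4 := by
      by_contra hcon
      push Not at hcon
      have := (le_abs_self _).trans (hB0 z ⟨⟨hcon.le, hz1⟩, hz.2⟩)
      linarith
    obtain ⟨j, hj⟩ := exists_nat_ge (η z - B0)
    refine mem_iUnion.2 ⟨j, hz, h4, hz2, ?_⟩
    push_cast
    linarith
  refine (lintegral_mono_set hsub).trans_lt ?_
  rw [setLIntegral_iUnion_of_directed _ hmono]
  exact (iSup_le hEb).trans_lt ENNReal.ofReal_lt_top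

end Pool.Agent.H24.VG
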