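import Pool.Agent.H95.VG.Targets1
import Pool.Agent.H95.VG.Targets3

/-!
# VG module RNC: properties of the density quotients
-/

open MeasureTheory Set Filter Topology
open scoped ENNReal NNReal ContDiff ComplexConjugate

namespace Pool.Agent.H24.VG

open Pool.Agent.H95.VG

variable {n : ℕ}

theorem vsum (v : V n) : v = ∑ k, v k • ek k := by
  funext i
  simp [ek, Finset.sum_apply, Pi.single_apply]

theorem jac_comp {g h : V n → V n} {z : V n} (hg : DifferentiableAt ℂ g (h z))
    (hh : DifferentiableAt ℂ h z) : jac (fun y => g (h y)) z = jac g (h z) * jac h z := by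
  ext i j
  have h1 : fderiv ℂ (fun y => g (h y)) z = (fderiv ℂ g (h z)).comp (fderiv ℂ h z) :=
    fderiv_comp z hg hh
  simp only [jac, Matrix.of_apply, Matrix.mul_apply, h1, ContinuousLinearMap.comp_apply]
  conv_lhs => rw [vsum (fderiv ℂ h z (ek j))]
  rw [map_sum, Finset.sum_apply]
  refine Finset.sum_congr rfl fun k _ => ?_
  rw [map_smul, Pi.smul_apply, smul_eq_mul, mul_comm]

theorem jac_congr {g h : V n → V n} {z : V n} (e : g =ᶠ[𝓝 z] h) : jac g z = jac h z := by
  ext i j
  simp only [jac, Matrix.of_apply, e.fderiv_eq]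

variable {X : Type} [TopologicalSpace X] {ι : Type}

theorem tr_dom (A : Atl n X ι) {a b : ι} {x : X} (hb : x ∈ (A.φ b).source)
    (ha : x ∈ (A.φ a).source) : A.φ b x ∈ ((A.φ b).symm.trans (A.φ a)).source := by
  rw [OpenPartialHomeomorph.trans_source]
  refine ⟨?_, ?_⟩
  · simpa using (A.φ b).map_source hb
  · simpa [(A.φ b).left_inv hb] using ha

theorem tr_diff (A : Atl n X ι) {a b : ι} {x : X} (hb : x ∈ (A.φ b).source)
    (ha : x ∈ (A.φ a).source) :
    DifferentiableAt ℂ (fun y => A.φ a ((A.φ b).symm y)) (A.φ b x) :=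
  (A.hol b a).differentiableAt (((A.φ b).symm.trans (A.φ a)).open_source.mem_nhds (tr_dom A hb ha))

/-- points near `φ b x` come back to `source c` -/
theorem ev_source (A : Atl n X ι) {b c : ι} {x : X} (hb : x ∈ (A.φ b).source)
    (hc : x ∈ (A.φ c).source) : ∀ᶠ y in 𝓝 (A.φ b x), (A.φ b).symm y ∈ (A.φ c).source := by
  have := ((A.φ b).symm.trans (A.φ c)).open_source.mem_nhds (tr_dom A hb hc)
  filter_upwards [this] with y hy
  rw [OpenPartialHomeomorph.trans_source] at hy
  exact hy.2

theorem jac_cocycle (A : Atl n X ι) {a b c : ι} {x : X} (ha : x ∈ (A.φ a).source)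
    (hb : x ∈ (A.φ b).source) (hc : x ∈ (A.φ c).source) :
    jac (fun y => A.φ a ((A.φ b).symm y)) (A.φ b x) =
      jac (fun y => A.φ a ((A.φ c).symm y)) (A.φ c x) *
        jac (fun y => A.φ c ((A.φ b).symm y)) (A.φ b x) := by
  have h1 : (fun y => A.φ a ((A.φ b).symm y)) =ᶠ[𝓝 (A.φ b x)]
      (fun y => (fun u => A.φ a ((A.φ c).symm u)) ((fun u => A.φ c ((A.φ b).symm u)) y)) := by
    filter_upwards [ev_source A hb hc] with y hy
    simp only [(A.φ c).left_inv hy]
  have h3 := jac_comp (g := fun u => A.φ a ((A.φ c).symm u))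
    (h := fun u => A.φ c ((A.φ b).symm u)) (z := A.φ b x)
    (by simp only [(A.φ b).left_inv hb]; exact tr_diff A hc ha) (tr_diff A hb hc)
  simp only [(A.φ b).left_inv hb] at h3
  rw [jac_congr h1]
  exact h3

theorem tj_cocycle (A : Atl n X ι) {a b c : ι} {x : X} (ha : x ∈ (A.φ a).source)
    (hb : x ∈ (A.φ b).source) (hc : x ∈ (A.φ c).source) :
    tj A b a x = tj A c a x * tj A b c x := by
  unfold tj
  rw [jac_cocycle A ha hb hc, Matrix.det_mul, norm_mul, mul_pow]

theorem tj_self (A : Atl n X ι) {b : ι} {x : X} (hb : x ∈ (A.φ b).source) : tj A b b x = 1 := by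
  unfold tj
  have h1 : (fun y => A.φ b ((A.φ b).symm y)) =ᶠ[𝓝 (A.φ b x)] (fun y => y) := by
    filter_upwards [(A.φ b).open_target.mem_nhds ((A.φ b).map_source hb)] with y hy
    exact (A.φ b).right_inv hy
  have h2 : jac (fun y : V n => y) (A.φ b x) = 1 := by
    ext i j
    simp only [jac, Matrix.of_apply, fderiv_fun_id, ContinuousLinearMap.coe_id', id_eq, ek,
      Matrix.one_apply, Pi.single_apply]
  rw [jac_congr h1, h2]
  simp

theorem tj_nonneg (A : Atl n X ι) (a b : ι) (x : X) : 0 ≤ tj A b a x := by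
  unfold tj; positivity

theorem tj_pos (A : Atl n X ι) {a b : ι} {x : X} (ha : x ∈ (A.φ a).source)
    (hb : x ∈ (A.φ b).source) : 0 < tj A b a x := by
  have h1 := tj_cocycle A hb hb ha
  rw [tj_self A hb] at h1
  rcases (tj_nonneg A a b x).lt_or_eq with h | h
  · exact h
  · rw [← h, mul_zero] at h1
    exact absurd h1 one_ne_zero

theorem tj_cont (hs : T_SMO) (A : Atl n X ι) (a b : ι) :
    ContinuousOn (tj A b a) ((A.φ b).source ∩ (A.φ a).source) := by
  have hO := ((A.φ b).symm.trans (A.φ a)).open_source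
  have h1 : ContinuousOn (fun y => jac (fun y => A.φ a ((A.φ b).symm y)) y)
      ((A.φ b).symm.trans (A.φ a)).source := by
    refine continuousOn_pi.2 fun i => continuousOn_pi.2 fun j => ?_
    have h2 := ((hs n (V n) _ _ hO (A.hol b a)).2.2 (ek j)).continuousOn
    exact (continuous_apply i).comp_continuousOn h2
  have h3 : ContinuousOn (fun x => (jac (fun y => A.φ a ((A.φ b).symm y)) (A.φ b x)).det)
      ((A.φ b).source ∩ (A.φ a).source) := by
    have hd : Continuous (fun M : Matrix (Fin n) (Fin n) ℂ => M.det) := continuous_id.matrix_det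
    refine hd.comp_continuousOn (h1.comp ((A.φ b).continuousOn.mono inter_subset_left) ?_)
    intro x hx
    exact tr_dom A hx.1 hx.2
  exact (h3.norm).pow 2

variable [T2Space X]

omit [T2Space X] in
theorem closed_img (A : Atl n X ι) (a : ι) (R : ℝ) (hR : R ≤ 3) :
    IsCompact ((A.φ a).symm '' Metric.closedBall (0 : V n) R) := by
  refine (isCompact_closedBall _ _).image_of_continuousOn ?_
  refine (A.φ a).continuousOn_symm.mono ?_
  exact (Metric.closedBall_subset_closedBall hR).trans (A.ball a)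

/-- one term of `dens` -/
theorem term_cont (hs : T_SMO) (A : Atl n X ι) (a b : ι) {q : V n → ℝ} (hq : Continuous q)
    (hsup : ∀ y, q y ≠ 0 → y ∈ Metric.closedBall (0 : V n) (3 / 2)) :
    ContinuousOn (((A.φ a).source).indicator (fun x => tj A b a x * q (A.φ a x)))
      (A.φ b).source := by
  classical
  intro x hx
  by_cases ha : x ∈ (A.φ a).source
  · have h1 : ContinuousAt (fun x => tj A b a x * q (A.φ a x)) x := by
      have hO : (A.φ b).source ∩ (A.φ a).source ∈ 𝓝 x :=
        ((A.φ b).open_source.inter (A.φ a).open_source).mem_nhds ⟨hx, ha⟩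
      refine ((tj_cont hs A a b).continuousAt hO).mul ?_
      exact hq.continuousAt.comp ((A.φ a).continuousAt ha)
    have h2 : (((A.φ a).source).indicator (fun x => tj A b a x * q (A.φ a x)))
        =ᶠ[𝓝 x] (fun x => tj A b a x * q (A.φ a x)) := by
      filter_upwards [(A.φ a).open_source.mem_nhds ha] with y hy
      exact indicator_of_mem hy _
    exact (h1.congr h2.symm).continuousWithinAt
  · have hcl := (closed_img A a (3 / 2) (by norm_num)).isClosed
    have hn : x ∉ (A.φ a).symm '' Metric.closedBall (0 : V n) (3 / 2) := by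
      rintro ⟨y, hy, rfl⟩
      exact ha ((A.φ a).map_target (A.ball a (Metric.closedBall_subset_closedBall
        (by norm_num) hy)))
    have h2 : (((A.φ a).source).indicator (fun x => tj A b a x * q (A.φ a x)))
        =ᶠ[𝓝 x] (fun _ => (0 : ℝ)) := by
      filter_upwards [hcl.isOpen_compl.mem_nhds hn] with y hy
      by_cases hya : y ∈ (A.φ a).source
      · rw [indicator_of_mem hya]
        by_contra hne
        have : q (A.φ a y) ≠ 0 := fun h0 => hne (by rw [h0, mul_zero])
        exact hy ⟨A.φ a y, hsup _ this, (A.φ a).left_inv hya⟩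
      · exact indicator_of_notMem hya _
    exact (continuousAt_const.congr h2.symm).continuousWithinAt

variable [Fintype ι]

theorem dens_cont (hs : T_SMO) (A : Atl n X ι) (b : ι) {p : ι → V n → ℝ}
    (hp : ∀ a, Continuous (p a))
    (hsup : ∀ a y, p a y ≠ 0 → y ∈ Metric.closedBall (0 : V n) (3 / 2)) :
    ContinuousOn (dens A p b) (A.φ b).source := by
  have h : dens A p b = fun x => ∑ a, ((A.φ a).source).indicator
      (fun x => tj A b a x * p a (A.φ a x)) x := rfl
  rw [h]
  exact continuousOn_finsetSum _ fun a _ => term_cont hs A a b (hp a) (hsup a)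

omit [T2Space X] in
theorem dens_cocycle (A : Atl n X ι) (p : ι → V n → ℝ) {b c : ι} {x : X}
    (hb : x ∈ (A.φ b).source) (hc : x ∈ (A.φ c).source) :
    dens A p b x = tj A b c x * dens A p c x := by
  unfold dens
  rw [Finset.mul_sum]
  refine Finset.sum_congr rfl fun a _ => ?_
  by_cases ha : x ∈ (A.φ a).source
  · rw [indicator_of_mem ha, indicator_of_mem ha, tj_cocycle A ha hb hc]
    ring
  · rw [indicator_of_notMem ha, indicator_of_notMem ha, mul_zero]

omit [T2Space X] in
theorem dens_pos (A : Atl n X ι) {w : ι → V n → ℝ} (hw : Gau A w) {b : ι} {x : X}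
    (hb : x ∈ (A.φ b).source) : 0 < dens A w b x := by
  unfold dens
  obtain ⟨a, ha, ha1⟩ := A.cover x
  refine Finset.sum_pos' (fun c _ => ?_) ⟨a, Finset.mem_univ _, ?_⟩
  · by_cases hc : x ∈ (A.φ c).source
    · rw [indicator_of_mem hc]
      exact mul_nonneg (tj_nonneg _ _ _ _) (hw.nonneg _ _)
    · rw [indicator_of_notMem hc]
  · rw [indicator_of_mem ha]
    exact mul_pos (tj_pos A ha hb) (hw.pos a _ (Metric.ball_subset_closedBall ha1))

omit [T2Space X] [Fintype ι] in
theorem ch_source (A : Atl n X ι) (x : X) : x ∈ (A.φ (ch A x)).source :=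
  (A.cover x).choose_spec.1

omit [T2Space X] [Fintype ι] in
theorem ch_ball (A : Atl n X ι) (x : X) : A.φ (ch A x) x ∈ Metric.ball (0 : V n) 1 :=
  (A.cover x).choose_spec.2

omit [T2Space X] in
theorem rn_eq (A : Atl n X ι) {w : ι → V n → ℝ} (hw : Gau A w) (p : ι → V n → ℝ) {b : ι} {x : X}
    (hb : x ∈ (A.φ b).source) : rn A w p x = dens A p b x / dens A w b x := by
  unfold rn
  have hc := ch_source A x
  rw [dens_cocycle A p hb hc, dens_cocycle A w hb hc]
  rw [mul_div_mul_left _ _ (tj_pos A hc hb).ne']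

theorem rn_cont (hs : T_SMO) (A : Atl n X ι) {w : ι → V n → ℝ} (hw : Gau A w)
    {p : ι → V n → ℝ} (hp : ∀ a, Continuous (p a))
    (hsup : ∀ a y, p a y ≠ 0 → y ∈ Metric.closedBall (0 : V n) (3 / 2)) :
    Continuous (rn A w p) := by
  rw [continuous_iff_continuousAt]
  intro x
  have hb := ch_source A x
  set b := ch A x with hbd
  have hO := (A.φ b).open_source.mem_nhds hb
  have h1 : rn A w p =ᶠ[𝓝 x] fun x => dens A p b x / dens A w b x := by
    filter_upwards [hO] with y hy
    exact rn_eq A hw p hy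
  refine ContinuousAt.congr ?_ h1.symm
  refine ((dens_cont hs A b hp hsup).continuousAt hO).div
    ((dens_cont hs A b (fun a => (hw.smooth a).continuous) hw.supp).continuousAt hO) ?_
  exact (dens_pos A hw hb).ne'

omit [T2Space X] in
theorem PB_eq (A : Atl n X ι) (f : V n → X) (p : ι → V n → ℝ) {z : V n} {b : ι}
    (hJ : ∀ a, f z ∈ (A.φ a).source → jac (FF A f a) z =
      jac (fun y => A.φ a ((A.φ b).symm y)) (A.φ b (f z)) * jac (FF A f b) z) :
    PB A f p z = dens A p b (f z) * ‖(jac (FF A f b) z).det‖ ^ 2 := by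
  unfold PB dens Wt
  rw [Finset.sum_mul]
  refine Finset.sum_congr rfl fun a _ => ?_
  by_cases ha : f z ∈ (A.φ a).source
  · rw [indicator_of_mem ha, indicator_of_mem ha, hJ a ha, Matrix.det_mul, norm_mul, mul_pow]
    unfold tj
    ring
  · rw [indicator_of_notMem ha, indicator_of_notMem ha, zero_mul, zero_mul]

theorem rnc (hs : T_SMO) (ho : T_OAO) : T_RNC := by
  intro n X _ _ _ ι _ A w p hw hp hsup
  have hc := rn_cont hs A hw hp hsup
  refine ⟨hc, ?_, ?_, fun b => dens_cont hs A b hp hsup, ?_⟩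
  · obtain ⟨C, hC⟩ := isCompact_univ.exists_bound_of_continuousOn (f := rn A w p) hc.continuousOn
    exact ⟨C, fun x => by simpa using hC x (mem_univ x)⟩
  · intro b x hb
    refine ⟨dens_pos A hw hb, ?_⟩
    rw [rn_eq A hw p hb, div_mul_cancel₀ _ (dens_pos A hw hb).ne']
  · intro f I hS z hz
    have hb := ch_source A (f z)
    have hJ : ∀ a, f z ∈ (A.φ a).source → jac (FF A f a) z =
        jac (fun y => A.φ a ((A.φ (ch A (f z))).symm y)) (A.φ (ch A (f z)) (f z)) *
          jac (FF A f (ch A (f z))) z := fun a ha =>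
      (ho n X ι A f I hS a).2.2.2.2.2 (ch A (f z)) z hz ha hb
    rw [PB_eq A f p hJ, PB_eq A f w hJ, rn_eq A hw p hb]
    have := (dens_pos A hw hb).ne'
    field_simp

end Pool.Agent.H24.VG
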