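import Pool.Agent.H24.VG.RNC

/-!
# VG module UNQ: uniqueness of the harmonic probability
-/

open MeasureTheory Set Filter Topology
open scoped ENNReal NNReal ContDiff ComplexConjugate

namespace Pool.Agent.H24.VG

open Pool.Agent.H95.VG

variable {n : ℕ}

/-- real determinant of a complex linear map of `V n` -/
theorem det_real (L : V n →L[ℂ] V n) :
    |(L.restrictScalars ℝ).det| = ‖(Matrix.of fun i j : Fin n => L (ek j) i).det‖ ^ 2 := by
  have h1 : (L.restrictScalars ℝ).det = Algebra.norm ℝ (LinearMap.det (L : V n →ₗ[ℂ] V n)) := by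
    rw [← LinearMap.det_restrictScalars]
    rfl
  have h2 : LinearMap.det (L : V n →ₗ[ℂ] V n) =
      (Matrix.of fun i j : Fin n => L (ek j) i).det := by
    rw [← LinearMap.det_toMatrix' (L : V n →ₗ[ℂ] V n)]
    congr 1
  rw [h1, h2, Algebra.norm_complex_apply, Complex.normSq_eq_norm_sq, abs_of_nonneg (sq_nonneg _)]

/-- change of variables for injective holomorphic maps -/
theorem chvar {O : Set (V n)} {Y : V n → V n} (hO : IsOpen O) (hY : DifferentiableOn ℂ Y O)
    (hi : InjOn Y O) (g : V n → ℝ≥0∞) :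
    ∫⁻ y in Y '' O, g y = ∫⁻ z in O, ENNReal.ofReal (‖(jac Y z).det‖ ^ 2) * g (Y z) := by
  have h := lintegral_image_eq_lintegral_abs_det_fderiv_mul (volume : Measure (V n))
    (f' := fun z => (fderiv ℂ Y z).restrictScalars ℝ) hO.measurableSet
    (fun z hz => ((hY.differentiableAt (hO.mem_nhds hz)).hasFDerivAt.restrictScalars
      ℝ).hasFDerivWithinAt) hi g
  rw [h]
  refine setLIntegral_congr_fun hO.measurableSet fun z _ => ?_
  simp only [det_real]
  rfl

variable {X : Type} [TopologicalSpace X] {ι : Type}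

/-- the part of `X` in the polydisc of radius `3/2` of the chart `a` -/
def Ua (A : Atl n X ι) (a : ι) : Set X :=
  (A.φ a).source ∩ A.φ a ⁻¹' (Metric.ball (0 : V n) (3 / 2))

theorem Ua_open (A : Atl n X ι) (a : ι) : IsOpen (Ua A a) :=
  (A.φ a).isOpen_inter_preimage Metric.isOpen_ball

theorem ball_target (A : Atl n X ι) (a : ι) :
    Metric.ball (0 : V n) (3 / 2) ⊆ (A.φ a).target :=
  (Metric.ball_subset_closedBall.trans (Metric.closedBall_subset_closedBall (by norm_num))).trans
    (A.ball a)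

theorem img_open (A : Atl n X ι) (a : ι) {N : Set X} (hN : IsOpen N) (hs : N ⊆ Ua A a) :
    IsOpen (A.φ a '' N) :=
  (A.φ a).isOpen_image_of_subset_source hN (hs.trans inter_subset_left)

theorem img_ball (A : Atl n X ι) (a : ι) {N : Set X} (hs : N ⊆ Ua A a) :
    A.φ a '' N ⊆ Metric.ball (0 : V n) (3 / 2) := by
  rintro _ ⟨x, hx, rfl⟩
  exact (hs hx).2

variable [T2Space X] [Fintype ι]

open Classical in
/-- the reciprocal density on `Ua` -/
noncomputable def ra (A : Atl n X ι) (w : ι → V n → ℝ) (a : ι) : X → ℝ :=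
  (Ua A a).piecewise (fun x => (dens A w a x)⁻¹) (fun _ => 0)

open Classical in
/-- the chart on `Ua` -/
noncomputable def psi (A : Atl n X ι) (a : ι) : X → V n :=
  (Ua A a).piecewise (fun x => A.φ a x) (fun _ => 0)

variable [MeasurableSpace X] [BorelSpace X]

omit [T2Space X] [Fintype ι] in
theorem psi_meas (A : Atl n X ι) (a : ι) : Measurable (psi A a) := by
  classical
  unfold psi
  exact ContinuousOn.measurable_piecewise ((A.φ a).continuousOn.mono inter_subset_left)
    continuousOn_const (Ua_open A a).measurableSet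

theorem ra_meas (hs : T_SMO) (A : Atl n X ι) {w : ι → V n → ℝ} (hw : Gau A w) (a : ι) :
    Measurable (ra A w a) := by
  classical
  unfold ra
  refine ContinuousOn.measurable_piecewise ?_ continuousOn_const (Ua_open A a).measurableSet
  refine ContinuousOn.inv₀ ?_ fun x hx => (dens_pos A hw hx.1).ne'
  exact (dens_cont hs A a (fun a => (hw.smooth a).continuous) hw.supp).mono inter_subset_left

/-- the measure read in the chart `a` -/
noncomputable def ma (A : Atl n X ι) (w : ι → V n → ℝ) (m : Measure X) (a : ι) : Measure (V n) :=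
  Measure.map (psi A a) (m.withDensity (fun x => ENNReal.ofReal (ra A w a x)))

omit [T2Space X] [MeasurableSpace X] [BorelSpace X] in
theorem ra_nonneg (A : Atl n X ι) {w : ι → V n → ℝ} (hw : Gau A w) (a : ι) (x : X) :
    0 ≤ ra A w a x := by
  classical
  unfold ra
  by_cases hx : x ∈ Ua A a
  · rw [piecewise_eq_of_mem _ _ _ hx]
    exact inv_nonneg.2 (dens_pos A hw hx.1).le
  · rw [piecewise_eq_of_notMem _ _ _ hx]

theorem ma_fin [CompactSpace X] (hs : T_SMO) (A : Atl n X ι) {w : ι → V n → ℝ} (hw : Gau A w)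
    (m : Measure X) [IsFiniteMeasure m] (a : ι) : IsFiniteMeasure (ma A w m a) := by
  classical
  have hK := closed_img A a (3 / 2) (by norm_num)
  have hsub : (A.φ a).symm '' Metric.closedBall (0 : V n) (3 / 2) ⊆ (A.φ a).source := by
    rintro _ ⟨y, hy, rfl⟩
    exact (A.φ a).map_target (A.ball a (Metric.closedBall_subset_closedBall (by norm_num) hy))
  have hcont : ContinuousOn (fun x => (dens A w a x)⁻¹)
      ((A.φ a).symm '' Metric.closedBall (0 : V n) (3 / 2)) := by
    refine ContinuousOn.inv₀ ?_ fun x hx => (dens_pos A hw (hsub hx)).ne'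
    exact (dens_cont hs A a (fun a => (hw.smooth a).continuous) hw.supp).mono hsub
  obtain ⟨C, hC⟩ := hK.exists_bound_of_continuousOn hcont
  have hb : ∀ x, ra A w a x ≤ max C 0 := by
    intro x
    unfold ra
    by_cases hx : x ∈ Ua A a
    · rw [piecewise_eq_of_mem _ _ _ hx]
      refine (le_abs_self _).trans ((hC x ?_).trans (le_max_left _ _))
      exact ⟨A.φ a x, Metric.ball_subset_closedBall hx.2, (A.φ a).left_inv hx.1⟩
    · rw [piecewise_eq_of_notMem _ _ _ hx]
      exact le_max_right _ _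
  refine ⟨?_⟩
  unfold ma
  rw [Measure.map_apply (psi_meas A a) MeasurableSet.univ, preimage_univ,
    withDensity_apply _ MeasurableSet.univ, Measure.restrict_univ]
  refine (lintegral_mono (g := fun _ => ENNReal.ofReal (max C 0)) fun x =>
    ENNReal.ofReal_le_ofReal (hb x)).trans_lt ?_
  rw [lintegral_const]
  exact ENNReal.mul_lt_top ENNReal.ofReal_lt_top (measure_lt_top _ _)

/-- push forward formula on open subsets of `Ua` -/
theorem push (hs : T_SMO) (A : Atl n X ι) {w : ι → V n → ℝ} (hw : Gau A w) (m : Measure X)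
    (a : ι) {N : Set X} (hN : IsOpen N) (hsub : N ⊆ Ua A a) {G : V n → ℝ≥0∞}
    (hG : Measurable G) :
    ∫⁻ y in A.φ a '' N, G y ∂(ma A w m a) =
      ∫⁻ x in N, ENNReal.ofReal ((dens A w a x)⁻¹) * G (A.φ a x) ∂m := by
  classical
  have hI := (img_open A a hN hsub).measurableSet
  have hr := (ra_meas hs A hw a).ennreal_ofReal
  have hp := psi_meas A a
  unfold ma
  rw [setLIntegral_map hI hG hp, setLIntegral_withDensity_eq_setLIntegral_mul m hr
    (g := fun x => G (psi A a x)) (hG.comp hp) (hp hI), ← lintegral_indicator (hp hI), ← lintegral_indicator hN.measurableSet]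
  refine lintegral_congr fun x => ?_
  by_cases hx : x ∈ N
  · have hxU := hsub hx
    have hpx : psi A a x = A.φ a x := piecewise_eq_of_mem _ _ _ hxU
    have hrx : ra A w a x = (dens A w a x)⁻¹ := piecewise_eq_of_mem _ _ _ hxU
    have h1 : x ∈ psi A a ⁻¹' (A.φ a '' N) := by
      rw [mem_preimage, hpx]; exact mem_image_of_mem _ hx
    rw [indicator_of_mem h1, indicator_of_mem hx]
    simp only [Pi.mul_apply, hpx, hrx]
  · rw [indicator_of_notMem hx]
    by_cases h1 : x ∈ psi A a ⁻¹' (A.φ a '' N)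
    · rw [indicator_of_mem h1]
      have hxU : x ∉ Ua A a := by
        intro hxU
        have hpx : psi A a x = A.φ a x := piecewise_eq_of_mem _ _ _ hxU
        rw [mem_preimage, hpx] at h1
        obtain ⟨x', hx', he⟩ := h1
        have := (A.φ a).injOn (hsub hx').1 hxU.1 he
        exact hx (this ▸ hx')
      have hrx : ra A w a x = 0 := piecewise_eq_of_notMem _ _ _ hxU
      simp only [Pi.mul_apply, hrx, ENNReal.ofReal_zero, zero_mul]
    · rw [indicator_of_notMem h1]

omit [T2Space X] [MeasurableSpace X] [BorelSpace X] in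
theorem rn_sgl (A : Atl n X ι) {w : ι → V n → ℝ} (hw : Gau A w) (a : ι) {P : V n → ℝ}
    (hP : ∀ y, y ∉ Metric.ball (0 : V n) (3 / 2) → P y = 0) (x : X) :
    rn A w (sgl a P) x = ra A w a x * P (psi A a x) := by
  classical
  by_cases hx : x ∈ Ua A a
  · have hpx : psi A a x = A.φ a x := piecewise_eq_of_mem _ _ _ hx
    have hrx : ra A w a x = (dens A w a x)⁻¹ := piecewise_eq_of_mem _ _ _ hx
    rw [hpx, hrx, rn_eq A hw _ hx.1]
    have : dens A (sgl a P) a x = P (A.φ a x) := by
      unfold dens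
      rw [Finset.sum_eq_single a]
      · rw [indicator_of_mem hx.1, tj_self A hx.1, one_mul]
        simp [sgl]
      · intro c _ hc
        simp [sgl, hc]
      · intro h; exact absurd (Finset.mem_univ _) h
    rw [this, div_eq_mul_inv, mul_comm]
  · have hrx : ra A w a x = 0 := piecewise_eq_of_notMem _ _ _ hx
    rw [hrx, zero_mul]
    unfold rn
    have : dens A (sgl a P) (ch A x) x = 0 := by
      unfold dens
      refine Finset.sum_eq_zero fun c _ => ?_
      by_cases hc : c = a
      · subst hc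
        by_cases hxs : x ∈ (A.φ c).source
        · have : A.φ c x ∉ Metric.ball (0 : V n) (3 / 2) := fun h => hx ⟨hxs, h⟩
          simp [sgl, hP _ this]
        · rw [indicator_of_notMem hxs]
      · simp [sgl, hc]
    rw [this, zero_div]

theorem int_rn (hs : T_SMO) (A : Atl n X ι) {w : ι → V n → ℝ} (hw : Gau A w) (m : Measure X)
    (a : ι) {P : V n → ℝ} (hc : Continuous P)
    (hP : ∀ y, y ∉ Metric.ball (0 : V n) (3 / 2) → P y = 0) :
    ∫ x, rn A w (sgl a P) x ∂m = ∫ y, P y ∂(ma A w m a) := by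
  unfold ma
  rw [integral_map (psi_meas A a).aemeasurable hc.aestronglyMeasurable,
    integral_withDensity_eq_integral_toReal_smul (ra_meas hs A hw a).ennreal_ofReal
      (Eventually.of_forall fun x => ENNReal.ofReal_lt_top)]
  refine integral_congr_ae (Eventually.of_forall fun x => ?_)
  simp only [rn_sgl A hw a hP x, ENNReal.toReal_ofReal (ra_nonneg A hw a x), smul_eq_mul]

/-- conclusion of `T_WEY` for one chart -/
structure Wb (A : Atl n X ι) (w : ι → V n → ℝ) (m : Measure X) (a : ι) (b : V n → ℝ) : Prop where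
  cont : ContinuousOn b (Metric.ball (0 : V n) (3 / 2))
  nonneg : ∀ y ∈ Metric.ball (0 : V n) (3 / 2), 0 ≤ b y
  eq : (ma A w m a).restrict (Metric.ball (0 : V n) (3 / 2)) =
      (volume.restrict (Metric.ball (0 : V n) (3 / 2))).withDensity (fun y => ENNReal.ofReal (b y))
  max : ∀ y₀ ∈ Metric.ball (0 : V n) (3 / 2), IsLocalMax b y₀ → ∀ᶠ y in 𝓝 y₀, b y = b y₀

omit [T2Space X] [BorelSpace X] in
theorem Wb.lint {A : Atl n X ι} {w : ι → V n → ℝ} {m : Measure X} {a : ι} {b : V n → ℝ}
    (h : Wb A w m a b) {S : Set (V n)} (hS : MeasurableSet S)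
    (hSb : S ⊆ Metric.ball (0 : V n) (3 / 2)) {G : V n → ℝ≥0∞} (hG : Measurable G) :
    ∫⁻ y in S, G y ∂(ma A w m a) = ∫⁻ y in S, ENNReal.ofReal (b y) * G y := by
  have h1 : (ma A w m a).restrict S =
      (volume.restrict S).withDensity (fun y => ENNReal.ofReal (b y)) := by
    have := congrArg (fun μ : Measure (V n) => μ.restrict S) h.eq
    rw [Measure.restrict_restrict hS, restrict_withDensity hS, Measure.restrict_restrict hS,
      inter_eq_self_of_subset_left hSb] at this
    exact this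
  rw [h1, lintegral_withDensity_eq_lintegral_mul₀ _ hG.aemeasurable]
  · rfl
  · exact ((h.cont.mono hSb).aemeasurable hS).ennreal_ofReal

/-- transition between the charts on `N ⊆ Ua a ∩ Ua b` -/
theorem trans_lint (hs : T_SMO) {A : Atl n X ι} {w : ι → V n → ℝ} (hw : Gau A w) {m : Measure X}
    {a b : ι} {ba bb : V n → ℝ} (ha : Wb A w m a ba) (hb : Wb A w m b bb) {N : Set X}
    (hN : IsOpen N) (hNa : N ⊆ Ua A a) (hNb : N ⊆ Ua A b) :
    ∫⁻ y in A.φ a '' N, ENNReal.ofReal (ba y) =
      ∫⁻ y in A.φ a '' N, ENNReal.ofReal (bb (A.φ b ((A.φ a).symm y))) := by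
  set Y : V n → V n := fun y => A.φ a ((A.φ b).symm y) with hY
  have hbo := img_open A b hN hNb
  have hdiff : DifferentiableOn ℂ Y (A.φ b '' N) := by
    rintro _ ⟨x, hx, rfl⟩
    exact (tr_diff A (hNb hx).1 (hNa hx).1).differentiableWithinAt
  have hYx : ∀ x ∈ N, Y (A.φ b x) = A.φ a x := fun x hx => by
    simp only [hY, (A.φ b).left_inv (hNb hx).1]
  have hinj : InjOn Y (A.φ b '' N) := by
    rintro _ ⟨x, hx, rfl⟩ _ ⟨x', hx', rfl⟩ he
    rw [hYx x hx, hYx x' hx'] at he
    rw [(A.φ a).injOn (hNa hx).1 (hNa hx').1 he]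
  have himg : Y '' (A.φ b '' N) = A.φ a '' N := by
    rw [image_image]
    exact image_congr hYx
  have hG : Measurable (fun y => ENNReal.ofReal (‖(jac Y y).det‖ ^ 2)) := by
    refine Measurable.ennreal_ofReal (Measurable.pow_const (Measurable.norm ?_) 2)
    simp only [Matrix.det_apply]
    refine Finset.measurable_fun_sum _ fun σ _ => Measurable.const_smul ?_ _
    refine Finset.measurable_fun_prod _ fun i _ => ?_
    change Measurable fun y => (fderiv ℂ Y y (ek i)) (σ i)
    exact (measurable_pi_apply _).comp (measurable_fderiv_apply_const ℂ Y (ek i))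
  have h1 := push hs A hw m a hN hNa (G := fun _ => 1) measurable_const
  have h2 := push hs A hw m b hN hNb hG
  have h3 := ha.lint (img_open A a hN hNa).measurableSet (img_ball A a hNa)
    (G := fun _ => 1) measurable_const
  have h4 := hb.lint hbo.measurableSet (img_ball A b hNb) hG
  simp only [mul_one] at h1 h3
  rw [← h3, h1, ← himg, chvar hbo hdiff hinj]
  have h5 : ∫⁻ x in N, ENNReal.ofReal ((dens A w a x)⁻¹) ∂m =
      ∫⁻ x in N, ENNReal.ofReal ((dens A w b x)⁻¹) *
        ENNReal.ofReal (‖(jac Y (A.φ b x)).det‖ ^ 2) ∂m := by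
    refine setLIntegral_congr_fun hN.measurableSet fun x hx => ?_
    have hc := dens_cocycle A w (hNb hx).1 (hNa hx).1
    have hpos := tj_pos A (hNa hx).1 (hNb hx).1
    have hda := dens_pos A hw (hNa hx).1
    have hdb := dens_pos A hw (hNb hx).1
    rw [← ENNReal.ofReal_mul (inv_nonneg.2 hdb.le)]
    congr 1
    change _ = (dens A w b x)⁻¹ * tj A b a x
    rw [hc, mul_inv, mul_assoc, mul_comm, mul_assoc, mul_inv_cancel₀ hpos.ne', mul_one]
  rw [h5, ← h2, h4]
  refine setLIntegral_congr_fun hbo.measurableSet ?_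
  rintro _ ⟨x, hx, rfl⟩
  simp only [hYx x hx, (A.φ a).left_inv (hNa hx).1]
  rw [mul_comm]

theorem compat_le (hs : T_SMO) {A : Atl n X ι} {w : ι → V n → ℝ} (hw : Gau A w) {m : Measure X}
    {a b : ι} {ba bb : V n → ℝ} (ha : Wb A w m a ba) (hb : Wb A w m b bb) {x : X}
    (hxa : x ∈ Ua A a) (hxb : x ∈ Ua A b) : bb (A.φ b x) ≤ ba (A.φ a x) := by
  by_contra hlt
  push Not at hlt
  obtain ⟨c, hc1, hc2⟩ := exists_between hlt
  obtain ⟨d, hd1, hd2⟩ := exists_between hc2
  have hca : ContinuousAt (fun x => ba (A.φ a x)) x :=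
    (ha.cont.continuousAt (Metric.isOpen_ball.mem_nhds hxa.2)).comp ((A.φ a).continuousAt hxa.1)
  have hcb : ContinuousAt (fun x => bb (A.φ b x)) x :=
    (hb.cont.continuousAt (Metric.isOpen_ball.mem_nhds hxb.2)).comp ((A.φ b).continuousAt hxb.1)
  have hev : ∀ᶠ x' in 𝓝 x, ba (A.φ a x') < c ∧ d < bb (A.φ b x') ∧ x' ∈ Ua A a ∧ x' ∈ Ua A b :=
    (hca.eventually_lt_const hc1).and ((hcb.eventually_const_lt hd2).and
      (((Ua_open A a).eventually_mem hxa).and ((Ua_open A b).eventually_mem hxb)))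
  obtain ⟨N, hN, hNo, hxN⟩ := eventually_nhds_iff.1 hev
  have h := trans_lint hs hw ha hb hNo (fun x hx => (hN x hx).2.2.1) (fun x hx => (hN x hx).2.2.2)
  have hIo := img_open A a hNo (fun x hx => (hN x hx).2.2.1)
  have hIb := img_ball A a (fun x hx => (hN x hx).2.2.1)
  have hvp : 0 < volume (A.φ a '' N) := hIo.measure_pos _ ⟨_, mem_image_of_mem _ hxN⟩
  have hvf : volume (A.φ a '' N) < ⊤ := (measure_mono hIb).trans_lt measure_ball_lt_top
  have h1 : ∫⁻ y in A.φ a '' N, ENNReal.ofReal (ba y) ≤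
      ENNReal.ofReal c * volume (A.φ a '' N) := by
    rw [← setLIntegral_const]
    refine setLIntegral_mono' hIo.measurableSet ?_
    rintro _ ⟨x', hx', rfl⟩
    exact ENNReal.ofReal_le_ofReal (hN x' hx').1.le
  have h2 : ENNReal.ofReal d * volume (A.φ a '' N) ≤
      ∫⁻ y in A.φ a '' N, ENNReal.ofReal (bb (A.φ b ((A.φ a).symm y))) := by
    rw [← setLIntegral_const]
    refine setLIntegral_mono' hIo.measurableSet ?_
    rintro _ ⟨x', hx', rfl⟩
    rw [(A.φ a).left_inv (hN x' hx').2.2.1.1]
    exact ENNReal.ofReal_le_ofReal (hN x' hx').2.1.le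
  have h3 : ENNReal.ofReal d * volume (A.φ a '' N) ≤ ENNReal.ofReal c * volume (A.φ a '' N) :=
    h2.trans (h ▸ h1)
  have h4 := (ENNReal.mul_le_mul_iff_left hvp.ne' hvf.ne).1 h3
  have hc0 : 0 ≤ ba (A.φ a x) := ha.nonneg _ hxa.2
  rw [ENNReal.ofReal_le_ofReal_iff (hc0.trans hc1.le)] at h4
  linarith

theorem compat (hs : T_SMO) {A : Atl n X ι} {w : ι → V n → ℝ} (hw : Gau A w) {m : Measure X}
    {a b : ι} {ba bb : V n → ℝ} (ha : Wb A w m a ba) (hb : Wb A w m b bb) {x : X}
    (hxa : x ∈ Ua A a) (hxb : x ∈ Ua A b) : bb (A.φ b x) = ba (A.φ a x) :=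
  le_antisymm (compat_le hs hw ha hb hxa hxb) (compat_le hs hw hb ha hxb hxa)

/-- all the densities are equal to the same constant -/
theorem all_const [CompactSpace X] [ConnectedSpace X] (hs : T_SMO) {A : Atl n X ι}
    {w : ι → V n → ℝ} (hw : Gau A w) {m : Measure X} {b : ι → V n → ℝ}
    (hb : ∀ a, Wb A w m a (b a)) :
    ∃ M : ℝ, 0 ≤ M ∧ ∀ a, ∀ y ∈ Metric.ball (0 : V n) (3 / 2), b a y = M := by
  have hch : ∀ x, x ∈ Ua A (ch A x) := fun x =>
    ⟨ch_source A x, Metric.ball_subset_ball (by norm_num) (ch_ball A x)⟩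
  set B : X → ℝ := fun x => b (ch A x) (A.φ (ch A x) x) with hB
  have hBeq : ∀ a x, x ∈ Ua A a → B x = b a (A.φ a x) := fun a x hx =>
    compat hs hw (hb a) (hb (ch A x)) hx (hch x)
  have hBloc : ∀ a x, x ∈ Ua A a → B =ᶠ[𝓝 x] fun x => b a (A.φ a x) := fun a x hx => by
    filter_upwards [(Ua_open A a).mem_nhds hx] with x' hx'
    exact hBeq a x' hx'
  have hBc : Continuous B := by
    rw [continuous_iff_continuousAt]
    intro x
    refine ContinuousAt.congr ?_ (hBloc _ x (hch x)).symm
    exact ((hb _).cont.continuousAt (Metric.isOpen_ball.mem_nhds (hch x).2)).comp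
      ((A.φ (ch A x)).continuousAt (hch x).1)
  obtain ⟨x₀, -, hx₀⟩ := isCompact_univ.exists_isMaxOn univ_nonempty hBc.continuousOn
  have hmax : ∀ x, B x ≤ B x₀ := fun x => hx₀ (mem_univ x)
  have hcl : IsClosed {x | B x = B x₀} := isClosed_eq hBc continuous_const
  have hop : IsOpen {x | B x = B x₀} := by
    rw [isOpen_iff_mem_nhds]
    intro x hx
    set a := ch A x with ha
    have hxa : x ∈ Ua A a := hch x
    have hlm : IsLocalMax (b a) (A.φ a x) := by
      have h1 : ∀ᶠ y in 𝓝 (A.φ a x), (A.φ a).symm y ∈ Ua A a := by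
        have hc := (A.φ a).continuousAt_symm ((A.φ a).map_source hxa.1)
        have : Ua A a ∈ 𝓝 ((A.φ a).symm (A.φ a x)) := by
          rw [(A.φ a).left_inv hxa.1]; exact (Ua_open A a).mem_nhds hxa
        exact hc this
      filter_upwards [h1, (A.φ a).open_target.mem_nhds ((A.φ a).map_source hxa.1)] with y hy hyt
      have h2 := hBeq a _ hy
      rw [(A.φ a).right_inv hyt] at h2
      rw [← h2, ← hBeq a x hxa]
      exact (hmax _).trans hx.ge
    have h3 := (hb a).max _ hxa.2 hlm
    have h4 := ((A.φ a).continuousAt hxa.1).eventually h3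
    filter_upwards [h4, hBloc a x hxa] with x' h5 h6
    rw [h6, h5, ← hBeq a x hxa]
    exact hx
  have huniv := IsClopen.eq_univ ⟨hcl, hop⟩ ⟨x₀, rfl⟩
  refine ⟨B x₀, (hb _).nonneg _ (hch x₀).2, fun a y hy => ?_⟩
  have hyt := ball_target A a hy
  have hyU : (A.φ a).symm y ∈ Ua A a := by
    refine ⟨(A.φ a).map_target hyt, ?_⟩
    rw [mem_preimage, (A.φ a).right_inv hyt]
    exact hy
  have h7 : (A.φ a).symm y ∈ {x | B x = B x₀} := by rw [huniv]; exact mem_univ _
  have h8 := hBeq a _ hyU
  rw [(A.φ a).right_inv hyt] at h8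
  rw [← h8]
  exact h7

/-- functions with support in the closed polydisc vanish outside the open one -/
theorem van {P : V n → ℝ} (hc : Continuous P)
    (hP : ∀ y, P y ≠ 0 → y ∈ Metric.closedBall (0 : V n) (3 / 2)) (y : V n)
    (hy : y ∉ Metric.ball (0 : V n) (3 / 2)) : P y = 0 := by
  by_contra hne
  have h1 : ∀ᶠ y' in 𝓝 y, P y' ≠ 0 := hc.continuousAt.eventually_ne hne
  have h2 : Metric.closedBall (0 : V n) (3 / 2) ∈ 𝓝 y := by
    filter_upwards [h1] with y' hy' using hP y' hy'
  have h3 := mem_interior_iff_mem_nhds.2 h2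
  rw [interior_closedBall _ (by norm_num)] at h3
  exact hy h3

omit [T2Space X] [MeasurableSpace X] [BorelSpace X] in
theorem rn_sum (A : Atl n X ι) (w p : ι → V n → ℝ) (x : X) :
    rn A w p x = ∑ a, rn A w (sgl a (p a)) x := by
  classical
  unfold rn
  rw [← Finset.sum_div]
  congr 1
  unfold dens
  rw [Finset.sum_comm]
  refine Finset.sum_congr rfl fun c _ => ?_
  rw [Finset.sum_eq_single c]
  · simp [sgl]
  · intro a _ hac
    simp [sgl, hac.symm]
  · intro h; exact absurd (Finset.mem_univ _) h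

omit [T2Space X] [Fintype ι] [MeasurableSpace X] [BorelSpace X] in
theorem lev_van {P : V n → ℝ} {y v : V n} (hy : y ∉ tsupport P) : lev P y v = 0 := by
  have h1 : ∀ u : V n, fderiv ℝ (fun x => fderiv ℝ P x u) y = 0 := by
    intro u
    have h2 : (fun x => fderiv ℝ P x u) =ᶠ[𝓝 y] fun _ => (0 : ℝ) := by
      filter_upwards [(isClosed_tsupport P).isOpen_compl.mem_nhds hy] with x hx
      rw [fderiv_of_notMem_tsupport ℝ hx]
      rfl
    rw [h2.fderiv_eq, fderiv_const_apply]
  unfold lev
  rw [h1, h1]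
  simp

omit [T2Space X] [Fintype ι] [MeasurableSpace X] [BorelSpace X] in
theorem lev_cont {P : V n → ℝ} (hP : ContDiff ℝ ∞ P) (v : V n) :
    Continuous fun y => lev P y v := by
  have h1 : ∀ u : V n, ContDiff ℝ ∞ (fun x => fderiv ℝ P x u) := fun u =>
    (hP.fderiv_right (m := ∞) (by simp)).clm_apply contDiff_const
  have h2 : ∀ u : V n, Continuous (fun y => fderiv ℝ (fun x => fderiv ℝ P x u) y u) := fun u =>
    ((h1 u).continuous_fderiv (by simp)).clm_apply continuous_const
  unfold lev
  exact ((h2 v).add (h2 (Complex.I • v))).const_smul (4 : ℝ)⁻¹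

theorem unq (hs : T_SMO) (hwey : T_WEY) : T_UNQ := by
  intro n X _ _ _ _ _ _ ι _ A w m hn hw hm hz p hp hsup
  have hW : ∀ a, ∃ b, Wb A w m a b := by
    intro a
    have hfin := ma_fin hs A hw m a
    have hcond : ∀ P : V n → ℝ, ContDiff ℝ ∞ P → HasCompactSupport P →
        tsupport P ⊆ Metric.ball (0 : V n) (3 / 2) →
        ∫ y, ∑ k, lev P y (ek k) ∂(ma A w m a) = 0 := by
      intro P hP _ hPs
      have hsupp : ∀ y, y ∉ Metric.ball (0 : V n) (3 / 2) → ∑ k, lev P y (ek k) = 0 := by
        intro y hy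
        refine Finset.sum_eq_zero fun k _ => lev_van fun h => hy (hPs h)
      rw [← int_rn hs A hw m a (continuous_finsetSum _ fun k _ => lev_cont hP _) hsupp]
      refine hz a P hP fun y hy => ?_
      exact Metric.ball_subset_closedBall (hPs (subset_tsupport _ hy))
    obtain ⟨b, h1, h2, h3, h4⟩ := hwey n (ma A w m a) hn hfin hcond
    exact ⟨b, h1, h2, h3, h4⟩
  choose b hb using hW
  obtain ⟨M, hM, hMb⟩ := all_const hs hw hb
  have key : ∀ q : ι → V n → ℝ, (∀ a, Continuous (q a)) →
      (∀ a y, q a y ≠ 0 → y ∈ Metric.closedBall (0 : V n) (3 / 2)) →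
      ∫ x, rn A w q x ∂m = M * ∑ a, ∫ y, q a y := by
    intro q hq hqs
    have h0 : ∀ a, ∀ y, y ∉ Metric.ball (0 : V n) (3 / 2) → q a y = 0 := fun a y hy =>
      van (hq a) (hqs a) y hy
    have h1 : ∀ a, ∫ x, rn A w (sgl a (q a)) x ∂m = M * ∫ y, q a y := by
      intro a
      rw [int_rn hs A hw m a (hq a) (h0 a),
        ← setIntegral_eq_integral_of_forall_compl_eq_zero (h0 a), (hb a).eq]
      have h2 : (volume.restrict (Metric.ball (0 : V n) (3 / 2))).withDensity
          (fun y => ENNReal.ofReal (b a y)) =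
          ENNReal.ofReal M • volume.restrict (Metric.ball (0 : V n) (3 / 2)) := by
        rw [← withDensity_const]
        refine withDensity_congr_ae ?_
        filter_upwards [ae_restrict_mem measurableSet_ball] with y hy
        rw [hMb a y hy]
      rw [h2, integral_smul_measure, ENNReal.toReal_ofReal hM, smul_eq_mul,
        setIntegral_eq_integral_of_forall_compl_eq_zero (h0 a)]
    have h3 : ∫ x, rn A w q x ∂m = ∫ x, ∑ a, rn A w (sgl a (q a)) x ∂m :=
      integral_congr_ae (Eventually.of_forall fun x => rn_sum A w q x)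
    rw [h3, integral_finsetSum, Finset.mul_sum]
    · exact Finset.sum_congr rfl fun a _ => h1 a
    · intro a _
      have hcs : Continuous (rn A w (sgl a (q a))) := by
        refine rn_cont hs A hw (fun c => ?_) (fun c y hy => ?_)
        · unfold sgl
          by_cases hca : c = a
          · simp only [hca, if_true]; exact hq a
          · simp only [hca, if_false]; exact continuous_const
        · unfold sgl at hy
          by_cases hca : c = a
          · simp only [hca, if_true] at hy; exact hqs a y hy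
          · simp only [hca, if_false] at hy; exact absurd rfl hy
      obtain ⟨C, hC⟩ := isCompact_univ.exists_bound_of_continuousOn hcs.continuousOn
      exact Integrable.of_bound hcs.aestronglyMeasurable C
        (Eventually.of_forall fun x => hC x (mem_univ x))
  have hone : (1 : ℝ) = M * ∑ a, ∫ y, w a y := by
    rw [← key w (fun a => (hw.smooth a).continuous) hw.supp]
    have : ∀ x, rn A w w x = 1 := fun x => div_self (dens_pos A hw (ch_source A x)).ne'
    simp [this]
  rw [key p hp hsup]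
  have hne : (∑ a, ∫ y, w a y) ≠ 0 := by
    intro h
    rw [h, mul_zero] at hone
    exact one_ne_zero hone
  rw [eq_div_iff hne, mul_right_comm, ← hone, one_mul]

end Pool.Agent.H24.VG
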